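import Pool.Agent.Lib.MP_275a7d_co.Pot

/-!
The edges `e` with `Σ - e` balanced which lie in exactly one negative chordless circle.
-/

namespace Pool.Agent.Lib.MP_275a7d_co

open SimpleGraph

variable {V : Type} [Finite V]

omit [Finite V] in
theorem mem_cutSet {G : SimpleGraph V} (C : G.Subgraph) (θ : V → Prop) {x y : V}
    (h : C.Adj x y) : s(x, y) ∈ cutSet C θ ↔ ¬ (θ x ↔ θ y) := by
  constructor
  · rintro ⟨a, b, -, ha, hb, he⟩
    rw [Sym2.eq_iff] at he
    rcases he with ⟨rfl, rfl⟩ | ⟨rfl, rfl⟩ <;> tauto
  · intro hn
    by_cases hx : θ x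
    · exact ⟨x, y, h, hx, by tauto, rfl⟩
    · exact ⟨y, x, h.symm, by tauto, hx, Sym2.eq_swap⟩

/-- The sign of a circle when `Σ - e` has a potential. -/
theorem neg_iff (Γ : SignedGraph V) {u v : V} {θ : V → Prop}
    (hθ : IsPot (Γ.deleteEdge s(u, v)).graph (Γ.deleteEdge s(u, v)).neg θ)
    (C : Γ.graph.Subgraph) (h2 : ∀ w ∈ C.verts, (C.neighborSet w).ncard = 2) :
    Γ.IsNegative C ↔ (s(u, v) ∈ C.edgeSet ∧ (s(u, v) ∈ Γ.neg ↔ (θ u ↔ θ v))) := by
  have hev := cut_even C h2 θ
  -- comparison of the two sets outside `e`
  have hcmp : ∀ f ∈ C.edgeSet, f ≠ s(u, v) → (f ∈ Γ.neg ↔ f ∈ cutSet C θ) := by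
    intro f
    refine Sym2.ind (fun x y => ?_) f
    intro hf hne
    have hadj : C.Adj x y := hf
    rw [mem_cutSet C θ hadj]
    have h := hθ x y (by
      show (Γ.graph.deleteEdges {s(u, v)}).Adj x y
      rw [deleteEdges_adj]
      exact ⟨C.adj_sub hadj, by simpa using hne⟩)
    rw [← h]
    show _ ↔ s(x, y) ∈ Γ.neg \ {s(u, v)}
    simp [hne]
  have hcut_sub : cutSet C θ ⊆ C.edgeSet := by
    rintro _ ⟨x, y, hxy, -, -, rfl⟩
    exact hxy
  unfold SignedGraph.IsNegative
  by_cases he : s(u, v) ∈ C.edgeSet
  · have hadj : C.Adj u v := he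
    have hm := mem_cutSet C θ hadj
    simp only [he, true_and]
    by_cases hN : s(u, v) ∈ Γ.neg
    · by_cases hc : s(u, v) ∈ cutSet C θ
      · have : C.edgeSet ∩ Γ.neg = cutSet C θ := by
          ext f
          by_cases hf : f = s(u, v)
          · subst hf; simp [he, hN, hc]
          · constructor
            · rintro ⟨h1, h2⟩; exact (hcmp f h1 hf).1 h2
            · intro h; exact ⟨hcut_sub h, (hcmp f (hcut_sub h) hf).2 h⟩
        rw [this, ← Nat.not_even_iff_odd]
        simp only [hev, not_true_eq_false, hN, true_iff, false_iff]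
        exact hm.1 hc
      · have : C.edgeSet ∩ Γ.neg = insert s(u, v) (cutSet C θ) := by
          ext f
          by_cases hf : f = s(u, v)
          · subst hf; simp [he, hN]
          · constructor
            · rintro ⟨h1, h2⟩; exact Set.mem_insert_of_mem _ ((hcmp f h1 hf).1 h2)
            · intro h
              rcases Set.mem_insert_iff.1 h with h | h
              · exact absurd h hf
              · exact ⟨hcut_sub h, (hcmp f (hcut_sub h) hf).2 h⟩
        rw [this, Set.ncard_insert_of_notMem hc (Set.toFinite _)]
        have : Odd ((cutSet C θ).ncard + 1) := hev.add_one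
        simp only [this, hN, true_iff]
        by_contra h
        exact hc (hm.2 h)
    · by_cases hc : s(u, v) ∈ cutSet C θ
      · have : insert s(u, v) (C.edgeSet ∩ Γ.neg) = cutSet C θ := by
          ext f
          by_cases hf : f = s(u, v)
          · subst hf; simp [hc]
          · rw [Set.mem_insert_iff]
            constructor
            · rintro (h | ⟨h1, h2⟩)
              · exact absurd h hf
              · exact (hcmp f h1 hf).1 h2
            · intro h; exact Or.inr ⟨hcut_sub h, (hcmp f (hcut_sub h) hf).2 h⟩
        rw [← this, Set.ncard_insert_of_notMem (fun h => hN h.2) (Set.toFinite _)] at hev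
        have : Odd (C.edgeSet ∩ Γ.neg).ncard := by
          rw [← Nat.not_even_iff_odd]
          exact Nat.even_add_one.1 hev
        simp only [this, hN, false_iff, true_iff]
        exact hm.1 hc
      · have : C.edgeSet ∩ Γ.neg = cutSet C θ := by
          ext f
          by_cases hf : f = s(u, v)
          · subst hf; simp [hN, hc]
          · constructor
            · rintro ⟨h1, h2⟩; exact (hcmp f h1 hf).1 h2
            · intro h; exact ⟨hcut_sub h, (hcmp f (hcut_sub h) hf).2 h⟩
        rw [this, ← Nat.not_even_iff_odd]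
        simp only [hev, not_true_eq_false, hN, false_iff, not_not]
        by_contra h
        exact hc (hm.2 h)
  · have : C.edgeSet ∩ Γ.neg = cutSet C θ := by
      ext f
      by_cases hf : f = s(u, v)
      · subst hf
        simp only [Set.mem_inter_iff, he, false_and, false_iff]
        exact fun h => he (hcut_sub h)
      · constructor
        · rintro ⟨h1, h2⟩; exact (hcmp f h1 hf).1 h2
        · intro h; exact ⟨hcut_sub h, (hcmp f (hcut_sub h) hf).2 h⟩
    rw [this, ← Nat.not_even_iff_odd]
    simp [hev, he]

omit [Finite V] in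
/-- A chordless circle through `uv` which avoids `W`, from a walk which avoids `W`. -/
theorem exists_chordless (Γ : SignedGraph V) {u v : V} (huv : Γ.graph.Adj u v) (W : Set V)
    (q : (Γ.graph.deleteEdges {s(u, v)}).Walk u v) (hq : ∀ x ∈ q.support, x ∉ W) :
    ∃ C : Γ.graph.Subgraph, Γ.IsCircle C ∧ Γ.IsChordless C ∧ s(u, v) ∈ C.edgeSet ∧
      (∀ x ∈ C.verts, x ∉ W) ∧
      ∃ p : (Γ.graph.deleteEdges {s(u, v)}).Walk u v, p.IsPath ∧ C.verts = {x | x ∈ p.support} := by
  classical
  set K : SimpleGraph V :=
    { Adj := fun x y => (Γ.graph.deleteEdges {s(u, v)}).Adj x y ∧ x ∉ W ∧ y ∉ W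
      symm := ⟨fun x y h => ⟨h.1.symm, h.2.2, h.2.1⟩⟩
      loopless := ⟨fun x h => (Γ.graph.deleteEdges {s(u, v)}).loopless.irrefl x h.1⟩ } with hK
  have hKle1 : K ≤ Γ.graph.deleteEdges {s(u, v)} := fun x y h => h.1
  have hKle : K ≤ Γ.graph := hKle1.trans (deleteEdges_le _)
  have hreach : K.Reachable u v := by
    refine ⟨q.transfer K ?_⟩
    intro e he
    induction e using Sym2.ind with
    | _ x y =>
      exact ⟨q.adj_of_mem_edges he, hq x (q.fst_mem_support_of_mem_edges he),
        hq y (q.snd_mem_support_of_mem_edges he)⟩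
  obtain ⟨p, hp⟩ := hreach.exists_walk_length_eq_dist
  have hpath : p.IsPath := p.isPath_of_length_eq_dist hp
  have hnot : ¬ K.Adj u v := by
    intro h
    have := h.1
    rw [deleteEdges_adj] at this
    exact this.2 rfl
  obtain ⟨C, hC, hCv, hCe, -⟩ := circle_of_path Γ huv K hKle hnot p hpath
  have hW : ∀ x ∈ p.support, x ∉ W := by
    have key : ∀ {a b : V} (p : K.Walk a b), a ∉ W → ∀ x ∈ p.support, x ∉ W := by
      intro a b p
      induction p with
      | nil => intro ha x hx; simp only [Walk.support_nil, List.mem_singleton] at hx; exact hx ▸ ha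
      | cons h p ih =>
        intro ha x hx
        simp only [Walk.support_cons, List.mem_cons] at hx
        rcases hx with rfl | hx
        · exact ha
        · exact ih h.2.2 x hx
    exact key p (hq u q.start_mem_support)
  refine ⟨C, hC, ?_, by rw [hCe]; simp, ?_, p.mapLe hKle1, (Walk.isPath_mapLe hKle1).2 hpath, ?_⟩
  · -- chordless
    intro x hx y hy hxy
    rw [hCv] at hx hy
    have hx' : x ∈ p.support := hx
    have hy' : y ∈ p.support := hy
    show s(x, y) ∈ C.edgeSet
    rw [hCe]
    by_cases he : s(x, y) = s(u, v)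
    · rw [he]; simp
    · have hKxy : K.Adj x y := by
        refine ⟨?_, hW x hx', hW y hy'⟩
        rw [deleteEdges_adj]
        exact ⟨hxy, by simpa using he⟩
      -- consecutive vertices of the shortest walk
      have key : ∀ i j : ℕ, i ≤ p.length → j ≤ p.length → i < j →
          K.Adj (p.getVert i) (p.getVert j) → j = i + 1 := by
        intro i j hi hj hij h
        by_contra hne
        have h1 : K.dist u v ≤ i + 1 + (p.length - j) := by
          have := dist_le ((p.take i).append (Walk.cons h (p.drop j)))
          simp only [Walk.length_append, Walk.length_cons, Walk.take_length, Walk.drop_length] at this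
          omega
        omega
      obtain ⟨i, hi, hil⟩ := Walk.mem_support_iff_exists_getVert.1 hx'
      obtain ⟨j, hj, hjl⟩ := Walk.mem_support_iff_exists_getVert.1 hy'
      have hmem : s(x, y) ∈ p.edges := by
        rcases lt_trichotomy i j with h | h | h
        · have := key i j hil hjl h (by rw [hi, hj]; exact hKxy)
          subst this
          rw [← hi, ← hj]
          have := p.toSubgraph_adj_getVert (show i < p.length by omega)
          exact (Walk.mem_edges_toSubgraph p).1 this
        · exfalso; subst h; exact hKxy.ne (hi.symm.trans hj)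
        · have := key j i hjl hil h (by rw [hi, hj]; exact hKxy.symm)
          subst this
          rw [← hi, ← hj, Sym2.eq_swap]
          have := p.toSubgraph_adj_getVert (show j < p.length by omega)
          exact (Walk.mem_edges_toSubgraph p).1 this
      exact List.mem_cons_of_mem _ hmem
  · intro x hx
    rw [hCv] at hx
    exact hW x hx
  · rw [hCv]
    ext x
    simp [Walk.support_mapLe_eq_support]

end Pool.Agent.Lib.MP_275a7d_co
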