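import Pool.Agent.Lib.MP_275a7d_co.Bal

/-!
Characterization of the edges `e` with `Σ - e` balanced which lie in exactly one negative
chordless circle.
-/

namespace Pool.Agent.Lib.MP_275a7d_co

open SimpleGraph

variable {V : Type} [Finite V]

omit [Finite V] in
theorem ext_of_chordless (Γ : SignedGraph V) {C D : Γ.graph.Subgraph} (hC : Γ.IsChordless C)
    (hD : Γ.IsChordless D) (h : C.verts = D.verts) : C = D := by
  apply Subgraph.ext h
  ext x y
  constructor
  · intro hxy
    exact hD x (h ▸ C.edge_vert hxy) y (h ▸ C.edge_vert hxy.symm) (C.adj_sub hxy)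
  · intro hxy
    exact hC x (h ▸ D.edge_vert hxy) y (h ▸ D.edge_vert hxy.symm) (D.adj_sub hxy)

/-- Let `e = uv` be an edge of the finite signed simple graph `Γ` such that `Γ - e` is balanced.
Then `e` lies in exactly one negative chordless circle if and only if `Γ` is not balanced and
`u`, `v` are joined in the graph without `e` by a path all of whose vertices lie on every
walk from `u` to `v` in that graph. -/
theorem balancing_edge (Γ : SignedGraph V) (u v : V) (huv : Γ.graph.Adj u v)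
    (hb : (Γ.deleteEdge s(u, v)).Balanced) :
    Γ.hMinus s(u, v) = 1 ↔
      ¬ Γ.Balanced ∧ ∃ p : (Γ.graph.deleteEdges {s(u, v)}).Walk u v, p.IsPath ∧
        ∀ w ∈ p.support, ∀ q : (Γ.graph.deleteEdges {s(u, v)}).Walk u v, w ∈ q.support := by
  obtain ⟨θ, hθ⟩ := exists_pot _ hb
  -- in the unbalanced case all circles through `e` are negative
  have hall : ¬ Γ.Balanced → ∀ C : Γ.graph.Subgraph, Γ.IsCircle C → s(u, v) ∈ C.edgeSet →
      Γ.IsNegative C := by
    intro hub C hC he
    unfold SignedGraph.Balanced at hub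
    push Not at hub
    obtain ⟨C0, hC0, hneg⟩ := hub
    rw [neg_iff Γ hθ C0 hC0.2] at hneg
    rw [neg_iff Γ hθ C hC.2]
    exact ⟨he, hneg.2⟩
  constructor
  · intro h1
    rw [SignedGraph.hMinus, Set.ncard_eq_one] at h1
    obtain ⟨C0, hC0⟩ := h1
    have hmem : C0 ∈ ({C0} : Set Γ.graph.Subgraph) := rfl
    rw [← hC0] at hmem
    obtain ⟨hcirc, -, hneg, he⟩ := hmem
    have hub : ¬ Γ.Balanced := fun hb' => hb' C0 hcirc hneg
    refine ⟨hub, ?_⟩
    have huniq : ∀ C : Γ.graph.Subgraph, Γ.IsCircle C → Γ.IsChordless C → s(u, v) ∈ C.edgeSet →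
        C = C0 := by
      intro C h1 h2 h3
      have : C ∈ ({C0} : Set Γ.graph.Subgraph) := by
        rw [← hC0]; exact ⟨h1, h2, hall hub C h1 h3, h3⟩
      exact this
    obtain ⟨q0, -⟩ := walk_minus C0 hcirc.2 (show C0.Adj u v from he)
    obtain ⟨C1, hc1, hch1, he1, -, p, hp, hpv⟩ :=
      exists_chordless Γ huv ∅ q0 (fun x _ => Set.notMem_empty x)
    refine ⟨p, hp, ?_⟩
    intro w hw q
    by_contra hwq
    obtain ⟨C2, hc2, hch2, he2, hW, -⟩ := exists_chordless Γ huv {w} q (by
      intro x hx hxw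
      rw [Set.mem_singleton_iff] at hxw
      exact hwq (hxw ▸ hx))
    have h12 : C1 = C2 := (huniq C1 hc1 hch1 he1).trans (huniq C2 hc2 hch2 he2).symm
    have hwC : w ∈ C1.verts := by rw [hpv]; exact hw
    rw [h12] at hwC
    exact hW w hwC rfl
  · rintro ⟨hub, p, hp, hcut⟩
    obtain ⟨C1, hc1, hch1, he1, -, -⟩ :=
      exists_chordless Γ huv ∅ p (fun x _ => Set.notMem_empty x)
    obtain ⟨P, hP, hPv, -, -⟩ := circle_of_path Γ huv (Γ.graph.deleteEdges {s(u, v)})
      (deleteEdges_le _) (by rw [deleteEdges_adj]; intro h; exact h.2 rfl) p hp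
    have hverts : ∀ C : Γ.graph.Subgraph, Γ.IsCircle C → Γ.IsChordless C → s(u, v) ∈ C.edgeSet →
        C.verts = {x | x ∈ p.support} := by
      intro C h1 h2 h3
      obtain ⟨q, hq⟩ := walk_minus C h1.2 (show C.Adj u v from h3)
      have hsub : {x | x ∈ p.support} ⊆ C.verts := fun w hw => hq w (hcut w hw q)
      apply Set.Subset.antisymm _ hsub
      rw [← hPv] at hsub ⊢
      refine verts_subset P C ⟨hsub, ?_⟩ ?_ h1.1 hP.2 h1.2
      · intro x y hxy
        exact h2 x (hsub (P.edge_vert hxy)) y (hsub (P.edge_vert hxy.symm)) (P.adj_sub hxy)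
      · rw [hPv]; exact ⟨u, p.start_mem_support⟩
    rw [SignedGraph.hMinus, Set.ncard_eq_one]
    refine ⟨C1, ?_⟩
    ext C
    simp only [Set.mem_ofPred_eq, Set.mem_singleton_iff]
    constructor
    · rintro ⟨h1, h2, -, h3⟩
      exact ext_of_chordless Γ h2 hch1 ((hverts C h1 h2 h3).trans (hverts C1 hc1 hch1 he1).symm)
    · rintro rfl
      exact ⟨hc1, hch1, hall hub _ hc1 he1, he1⟩

end Pool.Agent.Lib.MP_275a7d_co
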