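import Pool.Agent.Lib.MP_275a7d_co.BalMain

/-!
MP_275a7d_co: edges `e` with `Σ - e` balanced in exactly one negative chordless circle.
-/

namespace Pool.Agent.Lib.MP_275a7d_co.BalancingEdgeCase

open Pool.Agent.Lib.MP_275a7d_co

/-- Let `e = uv` be an edge of a finite signed simple graph `Γ` such that `Γ - e` is balanced.
Then `e` lies in exactly one negative chordless circle if and only if `Γ` is not balanced and
in the graph without `e` there is a path from `u` to `v` all of whose vertices lie on every walk
from `u` to `v`. -/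
theorem result (V : Type) [Finite V] (Γ : SignedGraph V) (u v : V) (huv : Γ.graph.Adj u v)
    (hb : (Γ.deleteEdge s(u, v)).Balanced) :
    Γ.hMinus s(u, v) = 1 ↔
      ¬ Γ.Balanced ∧ ∃ p : (Γ.graph.deleteEdges {s(u, v)}).Walk u v, p.IsPath ∧
        ∀ w ∈ p.support, ∀ q : (Γ.graph.deleteEdges {s(u, v)}).Walk u v, w ∈ q.support :=
  balancing_edge Γ u v huv hb

end Pool.Agent.Lib.MP_275a7d_co.BalancingEdgeCase
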