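import Pool.Agent.Lib.MP_275a7d_co.Defs

/-!
Chordless circles as sets of vertices.
-/

namespace Pool.Agent.Lib.MP_275a7d_co

open SimpleGraph

variable {V : Type}

/-- `S` is the vertex set of a chordless circle. -/
structure CSet (G : SimpleGraph V) (S : Set V) : Prop where
  deg2 : ∀ x ∈ S, ∃ y1 ∈ S, ∃ y2 ∈ S, y1 ≠ y2 ∧ G.Adj x y1 ∧ G.Adj x y2 ∧
    ∀ y ∈ S, G.Adj x y → y = y1 ∨ y = y2
  conn : ∀ D : Set V, D ⊆ S → D.Nonempty → (∀ x ∈ D, ∀ y ∈ S, G.Adj x y → y ∈ D) → S ⊆ D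

theorem cset_of_circle (Γ : SignedGraph V) (C : Γ.graph.Subgraph) (hC : Γ.IsCircle C)
    (hch : Γ.IsChordless C) : CSet Γ.graph C.verts := by
  constructor
  · intro x hx
    obtain ⟨y1, y2, hne, h⟩ := Set.ncard_eq_two.1 (hC.2 x hx)
    have h1 : C.Adj x y1 := by
      have : y1 ∈ C.neighborSet x := by rw [h]; simp
      exact this
    have h2 : C.Adj x y2 := by
      have : y2 ∈ C.neighborSet x := by rw [h]; simp
      exact this
    refine ⟨y1, C.edge_vert h1.symm, y2, C.edge_vert h2.symm, hne, C.adj_sub h1, C.adj_sub h2, ?_⟩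
    intro y hy hxy
    have : y ∈ C.neighborSet x := hch x hx y hy hxy
    rw [h] at this
    simpa using this
  · intro D hD hne hcl
    have walk : ∀ {a b : C.verts} (w : C.coe.Walk a b), a.1 ∈ D → b.1 ∈ D := by
      intro a b w
      induction w with
      | nil => exact id
      | @cons a c b h w ih =>
        intro ha
        exact ih (hcl _ ha _ c.2 (C.adj_sub h))
    intro y hy
    obtain ⟨x, hx⟩ := hne
    obtain ⟨w⟩ := hC.1.coe.preconnected ⟨x, hD hx⟩ ⟨y, hy⟩
    exact walk w hx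

theorem circle_of_cset (Γ : SignedGraph V) (S : Set V) (hS : CSet Γ.graph S) (hne : S.Nonempty) :
    Γ.IsCircle ((⊤ : Γ.graph.Subgraph).induce S) ∧
      Γ.IsChordless ((⊤ : Γ.graph.Subgraph).induce S) := by
  have hadj : ∀ x y, ((⊤ : Γ.graph.Subgraph).induce S).Adj x y ↔
      x ∈ S ∧ y ∈ S ∧ Γ.graph.Adj x y := by
    intro x y
    simp [Subgraph.induce_adj]
  refine ⟨⟨?_, ?_⟩, ?_⟩
  · rw [Subgraph.connected_iff]
    refine ⟨?_, by simpa using hne⟩
    rw [Subgraph.preconnected_iff]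
    intro a b
    have ha : a.1 ∈ S := a.2
    set D : Set V := {y | ∃ h : y ∈ S,
      ((⊤ : Γ.graph.Subgraph).induce S).coe.Reachable a ⟨y, h⟩} with hD
    have hb : b.1 ∈ D := by
      refine hS.conn D ?_ ?_ ?_ b.2
      · rintro y ⟨h, -⟩; exact h
      · exact ⟨a.1, ha, Reachable.refl _⟩
      · rintro x ⟨hx, hr⟩ y hy hxy
        refine ⟨hy, hr.trans (Adj.reachable ?_)⟩
        exact (hadj x y).2 ⟨hx, hy, hxy⟩
    obtain ⟨_, h⟩ := hb
    exact h
  · intro x hx
    have hx' : x ∈ S := hx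
    obtain ⟨y1, hy1, y2, hy2, hne, h1, h2, h⟩ := hS.deg2 x hx'
    rw [Set.ncard_eq_two]
    refine ⟨y1, y2, hne, ?_⟩
    ext y
    rw [Subgraph.mem_neighborSet, hadj]
    constructor
    · rintro ⟨-, hy, hxy⟩
      simpa using h y hy hxy
    · rintro (rfl | rfl)
      · exact ⟨hx', hy1, h1⟩
      · exact ⟨hx', hy2, h2⟩
  · intro x hx y hy hxy
    exact (hadj x y).2 ⟨hx, hy, hxy⟩

/-- The number of negative chordless circles through `uv`, when there is exactly one negative
edge `xy`. -/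
theorem hMinus_eq [Finite V] (Γ : SignedGraph V) (u v x y : V) (huv : Γ.graph.Adj u v)
    (hxy : Γ.graph.Adj x y) (hneg : Γ.neg = {s(x, y)}) :
    Γ.hMinus s(u, v) = {S : Set V | CSet Γ.graph S ∧ u ∈ S ∧ v ∈ S ∧ x ∈ S ∧ y ∈ S}.ncard := by
  unfold SignedGraph.hMinus
  refine Set.ncard_congr (fun C _ => C.verts) ?_ ?_ ?_
  · rintro C ⟨hC, hch, hn, he⟩
    have h1 : C.Adj u v := he
    have hf : s(x, y) ∈ C.edgeSet := by
      by_contra h
      have : C.edgeSet ∩ Γ.neg = ∅ := by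
        rw [hneg]
        ext f
        simp only [Set.mem_inter_iff, Set.mem_singleton_iff, Set.mem_empty_iff_false, iff_false,
          not_and]
        rintro hf rfl
        exact h hf
      unfold SignedGraph.IsNegative at hn
      rw [this, Set.ncard_empty] at hn
      exact absurd hn (by decide)
    have h2 : C.Adj x y := hf
    exact ⟨cset_of_circle Γ C hC hch, C.edge_vert h1, C.edge_vert h1.symm, C.edge_vert h2,
      C.edge_vert h2.symm⟩
  · rintro C D ⟨-, hC, -, -⟩ ⟨-, hD, -, -⟩ h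
    apply Subgraph.ext h
    ext a b
    constructor
    · intro hab
      exact hD a (h ▸ C.edge_vert hab) b (h ▸ C.edge_vert hab.symm) (C.adj_sub hab)
    · intro hab
      exact hC a (h ▸ D.edge_vert hab) b (h ▸ D.edge_vert hab.symm) (D.adj_sub hab)
  · rintro S ⟨hS, hu, hv, hx, hy⟩
    obtain ⟨h1, h2⟩ := circle_of_cset Γ S hS ⟨u, hu⟩
    refine ⟨(⊤ : Γ.graph.Subgraph).induce S, ⟨h1, h2, ?_, ?_⟩, rfl⟩
    · have : ((⊤ : Γ.graph.Subgraph).induce S).edgeSet ∩ Γ.neg = {s(x, y)} := by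
        rw [hneg]
        ext f
        simp only [Set.mem_inter_iff, Set.mem_singleton_iff, and_iff_right_iff_imp]
        rintro rfl
        exact h2 x hx y hy hxy
      unfold SignedGraph.IsNegative
      rw [this, Set.ncard_singleton]
      exact odd_one
    · exact h2 u hu v hv huv

end Pool.Agent.Lib.MP_275a7d_co
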