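import Pool.Agent.Lib.MP_275a7d_co.Defs

/-!
Parity of cuts in 2-regular subgraphs, and consequences.
-/

namespace Pool.Agent.Lib.MP_275a7d_co

open SimpleGraph

variable {V : Type} [Finite V]

/-- The edges of `C` from a vertex with `θ` to a vertex without `θ`. -/
def cutSet {G : SimpleGraph V} (C : G.Subgraph) (θ : V → Prop) : Set (Sym2 V) :=
  {e | ∃ x y, C.Adj x y ∧ θ x ∧ ¬ θ y ∧ e = s(x, y)}

theorem cut_even {G : SimpleGraph V} (C : G.Subgraph)
    (h2 : ∀ v ∈ C.verts, (C.neighborSet v).ncard = 2) (θ : V → Prop) :
    Even (cutSet C θ).ncard := by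
  classical
  have := Fintype.ofFinite V
  set D : Finset (V × V) := Finset.univ.filter (fun p => C.Adj p.1 p.2 ∧ θ p.1) with hD
  set D1 : Finset (V × V) := Finset.univ.filter (fun p => C.Adj p.1 p.2 ∧ θ p.1 ∧ ¬ θ p.2) with hD1
  set D2 : Finset (V × V) := Finset.univ.filter (fun p => C.Adj p.1 p.2 ∧ θ p.1 ∧ θ p.2) with hD2
  have e1 : D.card = D1.card + D2.card := by
    rw [← Finset.card_union_of_disjoint]
    · congr 1
      ext p
      simp only [hD, hD1, hD2, Finset.mem_filter, Finset.mem_univ, true_and, Finset.mem_union]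
      tauto
    · rw [Finset.disjoint_left]
      intro p hp hq
      simp only [hD1, hD2, Finset.mem_filter, Finset.mem_univ, true_and] at hp hq
      exact hp.2.2 hq.2.2
  have e2 : Even D.card := by
    have : D.card = ∑ x : V, (D.filter (fun p => p.1 = x)).card := by
      rw [← Finset.card_eq_sum_card_fiberwise (f := fun p : V × V => p.1) (t := Finset.univ)]
      intro x _
      simp
    rw [this]
    apply Finset.even_sum
    intro x _
    have : (D.filter (fun p => p.1 = x)).card = if θ x then (C.neighborSet x).ncard else 0 := by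
      split_ifs with hx
      · rw [Set.ncard_eq_toFinset_card']
        apply Finset.card_bij (fun p _ => p.2)
        · intro p hp
          simp only [hD, Finset.mem_filter, Finset.mem_univ, true_and] at hp
          obtain ⟨⟨h1, -⟩, rfl⟩ := hp
          simpa using h1
        · intro p hp q hq hpq
          simp only [hD, Finset.mem_filter, Finset.mem_univ, true_and] at hp hq
          exact Prod.ext (hp.2.trans hq.2.symm) hpq
        · intro y hy
          refine ⟨(x, y), ?_, rfl⟩
          simp only [hD, Finset.mem_filter, Finset.mem_univ, true_and]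
          exact ⟨⟨by simpa using hy, hx⟩, trivial⟩
      · rw [Finset.card_eq_zero, Finset.filter_eq_empty_iff]
        intro p hp hpx
        simp only [hD, Finset.mem_filter, Finset.mem_univ, true_and] at hp
        exact hx (hpx ▸ hp.2)
    rw [this]
    split_ifs
    · by_cases hv : x ∈ C.verts
      · rw [h2 x hv]; exact even_two
      · have : C.neighborSet x = ∅ := by
          ext y
          simp only [Subgraph.mem_neighborSet, Set.mem_empty_iff_false, iff_false]
          intro h
          exact hv (C.edge_vert h)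
        rw [this]; simp
    · exact Even.zero
  have e3 : Even D2.card := by
    rw [← ZMod.natCast_eq_zero_iff_even]
    have : ((D2.card : ℕ) : ZMod 2) = ∑ p ∈ D2, (1 : ZMod 2) := by simp
    rw [this]
    apply Finset.sum_involution (fun p _ => (p.2, p.1))
    · intro p _; decide
    · intro p hp _ h
      simp only [hD2, Finset.mem_filter, Finset.mem_univ, true_and] at hp
      have : p.1 = p.2 := (congrArg Prod.fst h).symm
      exact C.loopless.irrefl _ (this ▸ hp.1)
    · intro p hp
      simp only [hD2, Finset.mem_filter, Finset.mem_univ, true_and] at hp ⊢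
      exact ⟨hp.1.symm, hp.2.2, hp.2.1⟩
    · intro p _; rfl
  have e4 : (cutSet C θ).ncard = D1.card := by
    have : cutSet C θ = (D1.image (fun p => s(p.1, p.2)) : Finset (Sym2 V)) := by
      ext e
      simp only [cutSet, hD1, Set.mem_ofPred_eq, Finset.coe_image, Set.mem_image, Finset.coe_filter,
        Finset.mem_univ, true_and, Prod.exists]
      constructor
      · rintro ⟨x, y, h1, h2, h3, rfl⟩
        exact ⟨x, y, ⟨h1, h2, h3⟩, rfl⟩
      · rintro ⟨x, y, ⟨h1, h2, h3⟩, rfl⟩
        exact ⟨x, y, h1, h2, h3, rfl⟩
    rw [this, Set.ncard_coe_finset, Finset.card_image_of_injOn]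
    intro p hp q hq hpq
    simp only [hD1, Finset.coe_filter, Finset.mem_univ, true_and, Set.mem_ofPred_eq] at hp hq
    simp only [Sym2.eq, Sym2.rel_iff', Prod.swap_prod_mk, Prod.mk.injEq] at hpq
    rcases hpq with h | h
    · exact Prod.ext h.1 h.2
    · exact absurd hp.2.1 (by rw [h.1]; exact hq.2.2)
  rw [e4]
  rw [e1] at e2
  exact (Nat.even_add.1 e2).2 e3

/-- In a 2-regular subgraph an edge is not a bridge. -/
theorem walk_minus {G : SimpleGraph V} (C : G.Subgraph)
    (h2 : ∀ v ∈ C.verts, (C.neighborSet v).ncard = 2) {u v : V} (huv : C.Adj u v) :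
    ∃ q : (G.deleteEdges {s(u, v)}).Walk u v, ∀ w ∈ q.support, w ∈ C.verts := by
  classical
  set K : SimpleGraph V :=
    { Adj := fun x y => C.Adj x y ∧ s(x, y) ≠ s(u, v)
      symm := ⟨fun x y h => ⟨h.1.symm, by rw [Sym2.eq_swap]; exact h.2⟩⟩
      loopless := ⟨fun x h => C.loopless.irrefl x h.1⟩ } with hK
  have hreach : K.Reachable u v := by
    by_contra hn
    have hcut : cutSet C (fun x => K.Reachable u x) = {s(u, v)} := by
      ext e
      simp only [cutSet, Set.mem_ofPred_eq, Set.mem_singleton_iff]
      constructor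
      · rintro ⟨x, y, h1, hx, hy, rfl⟩
        by_contra hne
        exact hy (hx.trans (Adj.reachable (show K.Adj x y from ⟨h1, hne⟩)))
      · rintro rfl
        exact ⟨u, v, huv, Reachable.refl _, hn, rfl⟩
    have := cut_even C h2 (fun x => K.Reachable u x)
    rw [hcut, Set.ncard_singleton] at this
    exact absurd this (by decide)
  obtain ⟨q⟩ := hreach
  have hle : K ≤ G.deleteEdges {s(u, v)} := by
    intro x y h
    rw [deleteEdges_adj]
    exact ⟨C.adj_sub h.1, by simpa using h.2⟩
  have key : ∀ {a b : V} (q : K.Walk a b), a ∈ C.verts → ∀ w ∈ q.support, w ∈ C.verts := by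
    intro a b q
    induction q with
    | nil => intro ha w hw; simp only [Walk.support_nil, List.mem_singleton] at hw; exact hw ▸ ha
    | cons h q ih =>
      intro ha w hw
      simp only [Walk.support_cons, List.mem_cons] at hw
      rcases hw with rfl | hw
      · exact ha
      · exact ih (C.edge_vert h.1.symm) w hw
  refine ⟨q.mapLe hle, ?_⟩
  intro w hw
  rw [Walk.support_mapLe_eq_support] at hw
  exact key q (C.edge_vert huv) w hw

omit [Finite V] in
/-- A 2-regular subgraph of a connected 2-regular subgraph has the same vertices. -/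
theorem verts_subset [Finite V] {G : SimpleGraph V} (P C : G.Subgraph) (hle : P ≤ C)
    (hne : P.verts.Nonempty) (hC : C.Connected)
    (hP2 : ∀ v ∈ P.verts, (P.neighborSet v).ncard = 2)
    (hC2 : ∀ v ∈ C.verts, (C.neighborSet v).ncard = 2) : C.verts ⊆ P.verts := by
  have step : ∀ a b, a ∈ P.verts → C.Adj a b → b ∈ P.verts := by
    intro a b ha hab
    have hsub : P.neighborSet a ⊆ C.neighborSet a := fun x hx => hle.2 hx
    have : P.neighborSet a = C.neighborSet a :=
      Set.eq_of_subset_of_ncard_le hsub (by rw [hP2 a ha, hC2 a (hle.1 ha)]) (Set.toFinite _)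
    have hb : b ∈ P.neighborSet a := by rw [this]; exact hab
    exact P.edge_vert (Subgraph.Adj.symm hb)
  have walk : ∀ {a b : C.verts} (w : C.coe.Walk a b), a.1 ∈ P.verts → b.1 ∈ P.verts := by
    intro a b w
    induction w with
    | nil => exact id
    | cons h w ih => exact fun ha => ih (step _ _ ha h)
  intro y hy
  obtain ⟨x, hx⟩ := hne
  obtain ⟨w⟩ := hC.coe.preconnected ⟨x, hle.1 hx⟩ ⟨y, hy⟩
  exact walk w hx

end Pool.Agent.Lib.MP_275a7d_co
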