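import Mathlib

/-!
Signed simple graphs, circles, chordless circles, the number `hMinus` of negative chordless
circles through an edge (MP_275a7d_co).
-/

namespace Pool.Agent.Lib.MP_275a7d_co

/-- A signed graph whose underlying graph is simple: the underlying graph together with the
set of its negative edges. -/
structure SignedGraph (V : Type) where
  /-- the underlying graph -/
  graph : SimpleGraph V
  /-- the negative edges -/
  neg : Set (Sym2 V)
  /-- the negative edges are edges of the underlying graph -/
  neg_subset : neg ⊆ graph.edgeSet

namespace SignedGraph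

variable {V : Type}

/-- A circle is a connected 2-regular subgraph. -/
def IsCircle (Γ : SignedGraph V) (C : Γ.graph.Subgraph) : Prop :=
  C.Connected ∧ ∀ v ∈ C.verts, (C.neighborSet v).ncard = 2

/-- A circle is negative if the product of the signs of its edges is negative, that is, if the
number of its negative edges is odd. -/
def IsNegative (Γ : SignedGraph V) (C : Γ.graph.Subgraph) : Prop :=
  Odd (C.edgeSet ∩ Γ.neg).ncard

/-- A circle is chordless if every edge of the underlying graph between two of its vertices is one
of its edges. -/
def IsChordless (Γ : SignedGraph V) (C : Γ.graph.Subgraph) : Prop :=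
  ∀ v ∈ C.verts, ∀ w ∈ C.verts, Γ.graph.Adj v w → C.Adj v w

/-- The number of negative chordless circles through the edge `e`. -/
noncomputable def hMinus (Γ : SignedGraph V) (e : Sym2 V) : ℕ :=
  {C : Γ.graph.Subgraph |
    Γ.IsCircle C ∧ Γ.IsChordless C ∧ Γ.IsNegative C ∧ e ∈ C.edgeSet}.ncard

/-- A signed graph is balanced if none of its circles is negative. -/
def Balanced (Γ : SignedGraph V) : Prop :=
  ∀ C : Γ.graph.Subgraph, Γ.IsCircle C → ¬ Γ.IsNegative C

/-- The signed graph obtained by deleting the edge `e`. -/
def deleteEdge (Γ : SignedGraph V) (e : Sym2 V) : SignedGraph V where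
  graph := Γ.graph.deleteEdges {e}
  neg := Γ.neg \ {e}
  neg_subset := by
    intro x hx
    rw [SimpleGraph.edgeSet_deleteEdges]
    exact ⟨Γ.neg_subset hx.1, hx.2⟩

end SignedGraph

end Pool.Agent.Lib.MP_275a7d_co
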