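import Pool.Agent.Lib.MP_275a7d_co.Defs

/-!
The signed graph of a formula in conjunctive normal form.
-/

namespace Pool.Agent.Lib.MP_275a7d_co

/-- A formula in conjunctive normal form: `n` variables, `m` clauses, each clause a list of
literals `(i, s)`; the literal `(i, true)` is the variable `i`, `(i, false)` its negation. -/
structure CNF where
  /-- number of variables -/
  n : ℕ
  /-- number of clauses -/
  m : ℕ
  /-- the clauses -/
  clause : Fin m → List (Fin n × Bool)

namespace CNF

/-- The assignment `a` satisfies the formula: every clause contains a true literal. -/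
def Sat (φ : CNF) (a : Fin φ.n → Bool) : Prop :=
  ∀ j : Fin φ.m, ∃ l ∈ φ.clause j, a l.1 = l.2

/-- The number of satisfying assignments. -/
noncomputable def numSat (φ : CNF) : ℕ := {a : Fin φ.n → Bool | φ.Sat a}.ncard

/-- The number of occurrences of literals. -/
def length (φ : CNF) : ℕ := ∑ j : Fin φ.m, (φ.clause j).length

/-- The vertices of the signed graph of `φ`: `p 0, ..., p (n + m)`, `q 0, ..., q n`, two vertices
`a i b`, `a' i b` for each variable `i` and truth value `b`, a vertex `l j k` for the
`k`-th literal of the clause `j`, and one more vertex `z`. -/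
inductive Vx (φ : CNF) : Type
  | p (i : Fin (φ.n + φ.m + 1)) : Vx φ
  | q (i : Fin (φ.n + 1)) : Vx φ
  | a (i : Fin φ.n) (b : Bool) : Vx φ
  | a' (i : Fin φ.n) (b : Bool) : Vx φ
  | l (j : Fin φ.m) (k : Fin (φ.clause j).length) : Vx φ
  | z : Vx φ

/-- `Contra j k i b`: the value `b` of the variable `i` contradicts the statement that the `k`-th
literal of the clause `j` is true and the literals before it are false. -/
def Contra (φ : CNF) (j : Fin φ.m) (k : Fin (φ.clause j).length) (i : Fin φ.n) (b : Bool) : Prop :=
  (φ.clause j).get k = (i, !b) ∨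
    ∃ k' : Fin (φ.clause j).length, k' < k ∧ (φ.clause j).get k' = (i, b)

/-- The edges of the signed graph of `φ`, each in one direction. -/
inductive Edge (φ : CNF) : Vx φ → Vx φ → Prop
  | pq (i : Fin (φ.n + φ.m + 1)) (j : Fin (φ.n + 1)) (h : i.val = 0 ∧ j.val = 0) :
      Edge φ (.p i) (.q j)
  | pa (i : Fin (φ.n + φ.m + 1)) (j : Fin φ.n) (b : Bool) (h : i.val = j.val ∨ i.val = j.val + 1) :
      Edge φ (.p i) (.a j b)
  | qa' (i : Fin (φ.n + 1)) (j : Fin φ.n) (b : Bool) (h : i.val = j.val ∨ i.val = j.val + 1) :
      Edge φ (.q i) (.a' j b)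
  | aa' (i : Fin φ.n) (b c : Bool) (h : b ≠ c) : Edge φ (.a i b) (.a' i c)
  | pl (i : Fin (φ.n + φ.m + 1)) (j : Fin φ.m) (k : Fin (φ.clause j).length)
      (h : i.val = φ.n + j.val ∨ i.val = φ.n + j.val + 1) : Edge φ (.p i) (.l j k)
  | la (j : Fin φ.m) (k : Fin (φ.clause j).length) (i : Fin φ.n) (b : Bool)
      (h : φ.Contra j k i b) : Edge φ (.l j k) (.a i b)
  | la' (j : Fin φ.m) (k : Fin (φ.clause j).length) (i : Fin φ.n) (b : Bool)
      (h : φ.Contra j k i b) : Edge φ (.l j k) (.a' i b)
  | pz (i : Fin (φ.n + φ.m + 1)) (h : i.val = φ.n + φ.m) : Edge φ (.p i) .z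
  | qz (i : Fin (φ.n + 1)) (h : i.val = φ.n) : Edge φ (.q i) .z

/-- The edge relation as a function (for the proofs). -/
def EdgeRel (φ : CNF) : Vx φ → Vx φ → Prop
  | .p i, .q j => i.val = 0 ∧ j.val = 0
  | .p i, .a j _ => i.val = j.val ∨ i.val = j.val + 1
  | .q i, .a' j _ => i.val = j.val ∨ i.val = j.val + 1
  | .a i b, .a' j c => i = j ∧ b ≠ c
  | .p i, .l j _ => i.val = φ.n + j.val ∨ i.val = φ.n + j.val + 1
  | .l j k, .a i b => φ.Contra j k i b
  | .l j k, .a' i b => φ.Contra j k i b
  | .p i, .z => i.val = φ.n + φ.m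
  | .q i, .z => i.val = φ.n
  | _, _ => False

theorem edge_iff (φ : CNF) (x w : Vx φ) : φ.Edge x w ↔ φ.EdgeRel x w := by
  constructor
  · intro h
    cases h with
    | pq i j h => exact h
    | pa i j b h => exact h
    | qa' i j b h => exact h
    | aa' i b c h => exact ⟨rfl, h⟩
    | pl i j k h => exact h
    | la j k i b h => exact h
    | la' j k i b h => exact h
    | pz i h => exact h
    | qz i h => exact h
  · intro h
    cases x with
    | p i =>
      cases w with
      | q j => exact .pq i j h
      | a j b => exact .pa i j b h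
      | l j k => exact .pl i j k h
      | z => exact .pz i h
      | p j => exact absurd h (by simp [EdgeRel])
      | a' j b => exact absurd h (by simp [EdgeRel])
    | q i =>
      cases w with
      | a' j b => exact .qa' i j b h
      | z => exact .qz i h
      | p j => exact absurd h (by simp [EdgeRel])
      | q j => exact absurd h (by simp [EdgeRel])
      | a j b => exact absurd h (by simp [EdgeRel])
      | l j k => exact absurd h (by simp [EdgeRel])
    | a i b =>
      cases w with
      | a' j c =>
        obtain ⟨rfl, h⟩ := h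
        exact .aa' i b c h
      | p j => exact absurd h (by simp [EdgeRel])
      | q j => exact absurd h (by simp [EdgeRel])
      | a j b => exact absurd h (by simp [EdgeRel])
      | l j k => exact absurd h (by simp [EdgeRel])
      | z => exact absurd h (by simp [EdgeRel])
    | a' i b => cases w <;> exact absurd h (by simp [EdgeRel])
    | l j k =>
      cases w with
      | a i b => exact .la j k i b h
      | a' i b => exact .la' j k i b h
      | p j => exact absurd h (by simp [EdgeRel])
      | q j => exact absurd h (by simp [EdgeRel])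
      | l j k => exact absurd h (by simp [EdgeRel])
      | z => exact absurd h (by simp [EdgeRel])
    | z => cases w <;> exact absurd h (by simp [EdgeRel])

theorem edgeRel_irrefl (φ : CNF) (x : Vx φ) : ¬ φ.EdgeRel x x := by
  cases x <;> simp [EdgeRel]

/-- The graph of `φ` with the edge relation as a function (for the proofs). -/
def graph (φ : CNF) : SimpleGraph (Vx φ) where
  Adj x w := φ.EdgeRel x w ∨ φ.EdgeRel w x
  symm := ⟨fun _ _ h => h.symm⟩
  loopless := ⟨fun x h => by
    rcases h with h | h <;> exact edgeRel_irrefl φ x h⟩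

/-- The graph of `φ`. -/
def sgraph (φ : CNF) : SimpleGraph (Vx φ) where
  Adj x w := φ.Edge x w ∨ φ.Edge w x
  symm := ⟨fun _ _ h => h.symm⟩
  loopless := ⟨fun x h => by
    rcases h with h | h <;> exact edgeRel_irrefl φ x ((edge_iff φ x x).1 h)⟩

theorem sgraph_eq (φ : CNF) : φ.sgraph = φ.graph := by
  ext x w
  exact or_congr (edge_iff φ x w) (edge_iff φ w x)

/-- The last of the vertices `p i`. -/
def pLast (φ : CNF) : Vx φ := .p ⟨φ.n + φ.m, Nat.lt_succ_self _⟩

/-- The first of the vertices `p i`. -/
def pZero (φ : CNF) : Vx φ := .p ⟨0, Nat.succ_pos _⟩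

/-- The first of the vertices `q i`. -/
def qZero (φ : CNF) : Vx φ := .q ⟨0, Nat.succ_pos _⟩

/-- The signed graph of `φ`: its only negative edge joins `p (n + m)` and `z`. -/
def signed (φ : CNF) : SignedGraph (Vx φ) where
  graph := φ.sgraph
  neg := {s(φ.pLast, Vx.z)}
  neg_subset := by
    intro e he
    rw [Set.mem_singleton_iff] at he
    subst he
    exact Or.inl (.pz _ rfl)

/-- The edge of the signed graph of `φ` between `p 0` and `q 0`. -/
def edge (φ : CNF) : Sym2 (Vx φ) := s(φ.pZero, φ.qZero)

end CNF

end Pool.Agent.Lib.MP_275a7d_co
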