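import Pool.Agent.Lib.MP_275a7d_co.Cut

/-!
Potentials of balanced signed graphs (Harary), circles made from a path and an edge.
-/

namespace Pool.Agent.Lib.MP_275a7d_co

open SimpleGraph

variable {V : Type} [Finite V]

theorem ncard_inter_list {α : Type} [DecidableEq α] (l : List α) (hl : l.Nodup) (N : Set α)
    [DecidablePred (· ∈ N)] : ({e | e ∈ l} ∩ N).ncard = l.countP (· ∈ N) := by
  have : ({e | e ∈ l} ∩ N) = ((l.toFinset.filter (· ∈ N) : Finset α) : Set α) := by
    ext e; simp
  rw [this, Set.ncard_coe_finset, List.countP_eq_length_filter]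
  have h2 : (l.toFinset.filter (· ∈ N)) = (l.filter (· ∈ N)).toFinset := by
    ext e; simp
  rw [h2, List.toFinset_card_of_nodup (hl.filter _)]

/-- `θ` is a potential of the signs on the edges of `H`. -/
def IsPot (H : SimpleGraph V) (N : Set (Sym2 V)) (θ : V → Prop) : Prop :=
  ∀ x y, H.Adj x y → (s(x, y) ∈ N ↔ ¬ (θ x ↔ θ y))

omit [Finite V] in
theorem pot_walk {H : SimpleGraph V} {N : Set (Sym2 V)} [DecidablePred (· ∈ N)] {θ : V → Prop}
    (hθ : IsPot H N θ) {x y : V} (p : H.Walk x y) :
    Even (p.edges.countP (· ∈ N)) ↔ (θ x ↔ θ y) := by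
  induction p with
  | nil => simp
  | @cons a b c h p ih =>
    have := hθ _ _ h
    rw [Walk.edges_cons, List.countP_cons]
    by_cases hN : s(a, b) ∈ N
    · simp only [hN, decide_true, if_true, Nat.even_add_one, ih]
      have h2 := this.1 hN
      tauto
    · simp only [hN, decide_false, Bool.false_eq_true, if_false, add_zero, ih]
      have h2 : (θ a ↔ θ b) := by
        by_contra h3
        exact hN (this.2 h3)
      rw [h2]

omit [Finite V] in
/-- The circle made from a path and an edge joining its ends. -/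
theorem circle_of_path (Γ : SignedGraph V) {u v : V} (huv : Γ.graph.Adj u v)
    (H : SimpleGraph V) (hH : H ≤ Γ.graph) (hnot : ¬ H.Adj u v) (p : H.Walk u v) (hp : p.IsPath) :
    ∃ C : Γ.graph.Subgraph, Γ.IsCircle C ∧ C.verts = {w | w ∈ p.support} ∧
      C.edgeSet = {e | e ∈ s(u, v) :: p.edges} ∧ (s(u, v) :: p.edges).Nodup := by
  have hnotin : s(u, v) ∉ p.edges := fun h => hnot (p.adj_of_mem_edges h)
  have hcyc : (Walk.cons huv.symm (p.mapLe hH)).IsCycle := by
    rw [Walk.cons_isCycle_iff]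
    refine ⟨(Walk.isPath_mapLe hH).2 hp, ?_⟩
    rw [Walk.edges_mapLe_eq_edges, Sym2.eq_swap]
    exact hnotin
  refine ⟨(Walk.cons huv.symm (p.mapLe hH)).toSubgraph,
    ⟨Walk.toSubgraph_connected _, ?_⟩, ?_, ?_, ?_⟩
  · intro w hw
    exact hcyc.ncard_neighborSet_toSubgraph_eq_two ((Walk.mem_verts_toSubgraph _).1 hw)
  · ext w
    rw [Walk.mem_verts_toSubgraph]
    simp only [Walk.support_cons, Walk.support_mapLe_eq_support, List.mem_cons,
      Set.mem_ofPred_eq, or_iff_right_iff_imp]
    rintro rfl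
    exact p.end_mem_support
  · ext e
    rw [Walk.edgeSet_toSubgraph]
    simp only [Walk.mem_edgeSet, Walk.edges_cons, Walk.edges_mapLe_eq_edges, List.mem_cons,
      Set.mem_ofPred_eq]
    rw [Sym2.eq_swap]
  · rw [List.nodup_cons]
    exact ⟨hnotin, hp.isTrail.edges_nodup⟩

/-- Harary: a balanced signed graph has a potential. -/
theorem exists_pot (Γ : SignedGraph V) (hb : Γ.Balanced) : ∃ θ : V → Prop, IsPot Γ.graph Γ.neg θ := by
  classical
  set T : Set (SimpleGraph V) := {H | H ≤ Γ.graph ∧ ∃ θ, IsPot H Γ.neg θ} with hT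
  have hTne : T.Nonempty := ⟨⊥, bot_le, fun _ => True, fun x y h => absurd h (by simp)⟩
  obtain ⟨H, hH⟩ := (Set.toFinite T).exists_maximal hTne
  obtain ⟨hle, θ, hθ⟩ := hH.prop
  suffices h : Γ.graph ≤ H by
    exact ⟨θ, fun x y hxy => hθ x y (h hxy)⟩
  intro x y hxy
  by_contra hn
  -- adding the edge is impossible
  have hmax : ∀ θ' : V → Prop, IsPot H Γ.neg θ' → (s(x, y) ∈ Γ.neg ↔ ¬ (θ' x ↔ θ' y)) → False := by
    intro θ' h1 h2
    have hmem : H ⊔ edge x y ∈ T := by
      refine ⟨sup_le hle ?_, θ', ?_⟩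
      · intro a b hab
        rw [edge_adj] at hab
        rcases hab.1 with ⟨rfl, rfl⟩ | ⟨rfl, rfl⟩
        · exact hxy
        · exact hxy.symm
      · intro a b hab
        rw [sup_adj, edge_adj] at hab
        rcases hab with hab | ⟨⟨rfl, rfl⟩ | ⟨rfl, rfl⟩, -⟩
        · exact h1 a b hab
        · exact h2
        · rw [Sym2.eq_swap, h2]; tauto
    have : H ⊔ edge x y ≤ H := hH.le_of_ge hmem le_sup_left
    exact hn (this (by rw [sup_adj, edge_adj]; exact Or.inr ⟨Or.inl ⟨rfl, rfl⟩, hxy.ne⟩))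
  by_cases hsat : (s(x, y) ∈ Γ.neg ↔ ¬ (θ x ↔ θ y))
  · exact hmax θ hθ hsat
  by_cases hr : H.Reachable x y
  · -- a negative circle
    obtain ⟨p, hp⟩ := hr.exists_isPath
    obtain ⟨C, hC, -, hCe, hnd⟩ := circle_of_path Γ hxy H hle hn p hp
    apply hb C hC
    rw [SignedGraph.IsNegative, hCe, ncard_inter_list _ hnd, List.countP_cons]
    have hpar := pot_walk hθ p
    by_cases hN : s(x, y) ∈ Γ.neg
    · simp only [hN, decide_true, if_true]
      rw [Nat.odd_add_one, Nat.not_odd_iff_even, hpar]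
      tauto
    · simp only [hN, decide_false, Bool.false_eq_true, if_false, add_zero]
      rw [← Nat.not_even_iff_odd, hpar]
      tauto
  · -- switch the component of `y`
    set θ' : V → Prop := fun z => if H.Reachable y z then ¬ θ z else θ z with hθ'
    refine hmax θ' ?_ ?_
    · intro a b hab
      rw [hθ a b hab]
      have hiff : H.Reachable y a ↔ H.Reachable y b :=
        ⟨fun h => h.trans hab.reachable, fun h => h.trans hab.symm.reachable⟩
      simp only [hθ']
      by_cases h : H.Reachable y a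
      · rw [if_pos h, if_pos (hiff.1 h)]; tauto
      · rw [if_neg h, if_neg (fun h' => h (hiff.2 h'))]
    · simp only [hθ']
      rw [if_pos (Reachable.refl y), if_neg (fun h => hr h.symm)]
      tauto

end Pool.Agent.Lib.MP_275a7d_co
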