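import Pool.Agent.Lib.MP_275a7d_co.SatCl

/-!
The set of a satisfying assignment is a chordless circle.
-/

namespace Pool.Agent.Lib.MP_275a7d_co

open SimpleGraph

namespace CNF

variable {φ : CNF}

/-- possible lower neighbours of `p t` -/
def LoP (φ : CNF) (t : ℕ) : Vx φ → Prop
  | .q _ => True
  | .a t' _ => t'.val + 1 = t
  | .l j _ => φ.n + j.val + 1 = t
  | _ => False

/-- possible upper neighbours of `p t` -/
def UpP (φ : CNF) (t : ℕ) : Vx φ → Prop
  | .a t' _ => t'.val = t
  | .l j _ => φ.n + j.val = t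
  | .z => True
  | _ => False

/-- possible lower neighbours of `q t` -/
def LoQ (φ : CNF) (t : ℕ) : Vx φ → Prop
  | .p _ => True
  | .a' t' _ => t'.val + 1 = t
  | _ => False

/-- possible upper neighbours of `q t` -/
def UpQ (φ : CNF) (t : ℕ) : Vx φ → Prop
  | .a' t' _ => t'.val = t
  | .z => True
  | _ => False

theorem adj_p {t : Fin (φ.n + φ.m + 1)} {y : Vx φ} (h : φ.graph.Adj (.p t) y) :
    LoP φ t.val y ∨ UpP φ t.val y := by
  cases y with
  | p t' => simp [graph, EdgeRel] at h
  | q t' => exact Or.inl trivial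
  | a t' b =>
    simp [graph, EdgeRel] at h
    rcases h with h | h
    · exact Or.inr h.symm
    · exact Or.inl h.symm
  | a' t' b => simp [graph, EdgeRel] at h
  | l j k =>
    simp [graph, EdgeRel] at h
    rcases h with h | h
    · exact Or.inr h.symm
    · exact Or.inl h.symm
  | z => exact Or.inr trivial

theorem adj_q {t : Fin (φ.n + 1)} {y : Vx φ} (h : φ.graph.Adj (.q t) y) :
    LoQ φ t.val y ∨ UpQ φ t.val y := by
  cases y with
  | q t' => simp [graph, EdgeRel] at h
  | p t' => exact Or.inl trivial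
  | a' t' b =>
    simp [graph, EdgeRel] at h
    rcases h with h | h
    · exact Or.inr h.symm
    · exact Or.inl h.symm
  | a t' b => simp [graph, EdgeRel] at h
  | l j k => simp [graph, EdgeRel] at h
  | z => exact Or.inr trivial

theorem not_both_p {t : ℕ} {y : Vx φ} (h : LoP φ t y) (h' : UpP φ t y) : False := by
  cases y <;> simp only [LoP, UpP] at h h' <;> omega

theorem not_both_q {t : ℕ} {y : Vx φ} (h : LoQ φ t y) (h' : UpQ φ t y) : False := by
  cases y <;> simp only [LoQ, UpQ] at h h' <;> omega

variable {a : Fin φ.n → Bool}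

theorem first_l (ha : φ.Sat a) {j : Fin φ.m} : ∃ k, φ.First a j k := (sat_iff_first a).1 ha j

theorem exLoP (ha : φ.Sat a) (t : Fin (φ.n + φ.m + 1)) :
    ∃ y ∈ φ.SA a, φ.graph.Adj (.p t) y ∧ LoP φ t.val y ∧
      ∀ y' ∈ φ.SA a, φ.graph.Adj (.p t) y' → LoP φ t.val y' → y' = y := by
  by_cases h0 : t.val = 0
  · refine ⟨.q ⟨0, by omega⟩, trivial, Or.inl ⟨h0, rfl⟩, trivial, ?_⟩
    intro y' _ hadj hlo
    cases y' with
    | q t' =>
      simp [graph, EdgeRel] at hadj
      rw [show t' = ⟨0, by omega⟩ from Fin.ext (by simp [hadj.2])]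
    | a t' b => simp only [LoP] at hlo; omega
    | l j k => simp only [LoP] at hlo; omega
    | p t' => simp [LoP] at hlo
    | a' t' b => simp [LoP] at hlo
    | z => simp [LoP] at hlo
  · by_cases h1 : t.val ≤ φ.n
    · have ht1 : t.val - 1 < φ.n := by omega
      refine ⟨.a ⟨t.val - 1, ht1⟩ (a ⟨t.val - 1, ht1⟩), rfl, Or.inl (Or.inr (by simp; omega)),
        by simp only [LoP]; omega, ?_⟩
      intro y' hy' hadj hlo
      cases y' with
      | q t' => simp [graph, EdgeRel] at hadj; exact absurd (by rw [hadj.1]; simp) h0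
      | a t' b =>
        simp only [LoP] at hlo
        have : t' = ⟨t.val - 1, ht1⟩ := Fin.ext (by simp; omega)
        subst this
        have hb : b = a _ := hy'
        rw [hb]
      | l j k => simp only [LoP] at hlo; omega
      | p t' => simp [LoP] at hlo
      | a' t' b => simp [LoP] at hlo
      | z => simp [LoP] at hlo
    · have hj1 : t.val - φ.n - 1 < φ.m := by omega
      obtain ⟨k, hk⟩ := first_l ha (j := ⟨t.val - φ.n - 1, hj1⟩)
      refine ⟨.l ⟨t.val - φ.n - 1, hj1⟩ k, hk, Or.inl (Or.inr (by simp; omega)),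
        by simp only [LoP]; omega, ?_⟩
      intro y' hy' hadj hlo
      cases y' with
      | q t' => simp [graph, EdgeRel] at hadj; exact absurd (by rw [hadj.1]; simp) h0
      | a t' b => simp only [LoP] at hlo; omega
      | l j k' =>
        simp only [LoP] at hlo
        have : j = ⟨t.val - φ.n - 1, hj1⟩ := Fin.ext (by simp; omega)
        subst this
        rw [First.uniq (show φ.First a _ k' from hy') hk]
      | p t' => simp [LoP] at hlo
      | a' t' b => simp [LoP] at hlo
      | z => simp [LoP] at hlo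

theorem exUpP (ha : φ.Sat a) (t : Fin (φ.n + φ.m + 1)) :
    ∃ y ∈ φ.SA a, φ.graph.Adj (.p t) y ∧ UpP φ t.val y ∧
      ∀ y' ∈ φ.SA a, φ.graph.Adj (.p t) y' → UpP φ t.val y' → y' = y := by
  by_cases h0 : t.val < φ.n
  · refine ⟨.a ⟨t.val, h0⟩ (a ⟨t.val, h0⟩), rfl, Or.inl (Or.inl rfl), rfl, ?_⟩
    intro y' hy' hadj hup
    cases y' with
    | a t' b =>
      simp only [UpP] at hup
      have : t' = ⟨t.val, h0⟩ := Fin.ext (by simp; omega)
      subst this
      have hb : b = a _ := hy'
      rw [hb]
    | l j k => simp only [UpP] at hup; omega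
    | z => simp [graph, EdgeRel] at hadj; omega
    | p t' => simp [UpP] at hup
    | q t' => simp [UpP] at hup
    | a' t' b => simp [UpP] at hup
  · by_cases h1 : t.val < φ.n + φ.m
    · have hj1 : t.val - φ.n < φ.m := by omega
      obtain ⟨k, hk⟩ := first_l ha (j := ⟨t.val - φ.n, hj1⟩)
      refine ⟨.l ⟨t.val - φ.n, hj1⟩ k, hk, Or.inl (Or.inl (by simp; omega)),
        by simp only [UpP]; omega, ?_⟩
      intro y' hy' hadj hup
      cases y' with
      | a t' b => simp only [UpP] at hup; omega
      | l j k' =>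
        simp only [UpP] at hup
        have : j = ⟨t.val - φ.n, hj1⟩ := Fin.ext (by simp; omega)
        subst this
        rw [First.uniq (show φ.First a _ k' from hy') hk]
      | z => simp [graph, EdgeRel] at hadj; omega
      | p t' => simp [UpP] at hup
      | q t' => simp [UpP] at hup
      | a' t' b => simp [UpP] at hup
    · refine ⟨.z, trivial, Or.inl (show t.val = φ.n + φ.m by omega), trivial, ?_⟩
      intro y' hy' hadj hup
      cases y' with
      | a t' b => simp only [UpP] at hup; omega
      | l j k' => simp only [UpP] at hup; omega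
      | z => rfl
      | p t' => simp [UpP] at hup
      | q t' => simp [UpP] at hup
      | a' t' b => simp [UpP] at hup

theorem exLoQ (t : Fin (φ.n + 1)) :
    ∃ y ∈ φ.SA a, φ.graph.Adj (.q t) y ∧ LoQ φ t.val y ∧
      ∀ y' ∈ φ.SA a, φ.graph.Adj (.q t) y' → LoQ φ t.val y' → y' = y := by
  by_cases h0 : t.val = 0
  · refine ⟨.p ⟨0, by omega⟩, trivial, Or.inr ⟨rfl, h0⟩, trivial, ?_⟩
    intro y' _ hadj hlo
    cases y' with
    | p t' =>
      simp [graph, EdgeRel] at hadj
      rw [show t' = ⟨0, by omega⟩ from Fin.ext (by simp [hadj.1])]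
    | a' t' b => simp only [LoQ] at hlo; omega
    | l j k => simp [LoQ] at hlo
    | q t' => simp [LoQ] at hlo
    | a t' b => simp [LoQ] at hlo
    | z => simp [LoQ] at hlo
  · have ht1 : t.val - 1 < φ.n := by omega
    refine ⟨.a' ⟨t.val - 1, ht1⟩ (a ⟨t.val - 1, ht1⟩), rfl, Or.inl (Or.inr (by simp; omega)),
      by simp only [LoQ]; omega, ?_⟩
    intro y' hy' hadj hlo
    cases y' with
    | p t' => simp [graph, EdgeRel] at hadj; exact absurd (by rw [hadj.2]; simp) h0
    | a' t' b =>
      simp only [LoQ] at hlo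
      have : t' = ⟨t.val - 1, ht1⟩ := Fin.ext (by simp; omega)
      subst this
      have hb : b = a _ := hy'
      rw [hb]
    | l j k => simp [LoQ] at hlo
    | q t' => simp [LoQ] at hlo
    | a t' b => simp [LoQ] at hlo
    | z => simp [LoQ] at hlo

theorem exUpQ (t : Fin (φ.n + 1)) :
    ∃ y ∈ φ.SA a, φ.graph.Adj (.q t) y ∧ UpQ φ t.val y ∧
      ∀ y' ∈ φ.SA a, φ.graph.Adj (.q t) y' → UpQ φ t.val y' → y' = y := by
  by_cases h0 : t.val < φ.n
  · refine ⟨.a' ⟨t.val, h0⟩ (a ⟨t.val, h0⟩), rfl, Or.inl (Or.inl rfl), rfl, ?_⟩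
    intro y' hy' hadj hup
    cases y' with
    | a' t' b =>
      simp only [UpQ] at hup
      have : t' = ⟨t.val, h0⟩ := Fin.ext (by simp; omega)
      subst this
      have hb : b = a _ := hy'
      rw [hb]
    | l j k => simp [UpQ] at hup
    | z => simp [graph, EdgeRel] at hadj; omega
    | p t' => simp [UpQ] at hup
    | q t' => simp [UpQ] at hup
    | a t' b => simp [UpQ] at hup
  · refine ⟨.z, trivial, Or.inl (show t.val = φ.n by omega), trivial, ?_⟩
    intro y' hy' hadj hup
    cases y' with
    | a' t' b => simp only [UpQ] at hup; omega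
    | l j k' => simp [UpQ] at hup
    | z => rfl
    | p t' => simp [UpQ] at hup
    | q t' => simp [UpQ] at hup
    | a t' b => simp [UpQ] at hup

theorem cset_SA (ha : φ.Sat a) : CSet φ.graph (φ.SA a) := by
  constructor
  · intro x hx
    cases x with
    | p t =>
      obtain ⟨y1, h1, a1, l1, u1⟩ := exLoP ha t
      obtain ⟨y2, h2, a2, l2, u2⟩ := exUpP ha t
      refine ⟨y1, h1, y2, h2, fun h => not_both_p l1 (h ▸ l2), a1, a2, ?_⟩
      intro y hy hadj
      rcases adj_p hadj with h | h
      · exact Or.inl (u1 y hy hadj h)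
      · exact Or.inr (u2 y hy hadj h)
    | q t =>
      obtain ⟨y1, h1, a1, l1, u1⟩ := exLoQ (a := a) t
      obtain ⟨y2, h2, a2, l2, u2⟩ := exUpQ (a := a) t
      refine ⟨y1, h1, y2, h2, fun h => not_both_q l1 (h ▸ l2), a1, a2, ?_⟩
      intro y hy hadj
      rcases adj_q hadj with h | h
      · exact Or.inl (u1 y hy hadj h)
      · exact Or.inr (u2 y hy hadj h)
    | a t b =>
      have hb : b = a t := hx
      subst hb
      refine ⟨.p ⟨t.val, by omega⟩, trivial, .p ⟨t.val + 1, by omega⟩, trivial, by simp,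
        Or.inr (Or.inl rfl), Or.inr (Or.inr rfl), ?_⟩
      intro y hy hadj
      cases y with
      | p t' =>
        simp [graph, EdgeRel] at hadj
        rcases hadj with h | h
        · left; rw [show t' = ⟨t.val, by omega⟩ from Fin.ext h]
        · right; rw [show t' = ⟨t.val + 1, by omega⟩ from Fin.ext h]
      | q t' => simp [graph, EdgeRel] at hadj
      | a t' b => simp [graph, EdgeRel] at hadj
      | a' t' b =>
        simp [graph, EdgeRel] at hadj
        have hb : b = a t' := hy
        subst hb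
        exact absurd (by rw [hadj.1]) hadj.2
      | l j k =>
        simp [graph, EdgeRel] at hadj
        exact absurd hadj (not_contra_of_first (show φ.First a j k from hy) t)
      | z => simp [graph, EdgeRel] at hadj
    | a' t b =>
      have hb : b = a t := hx
      subst hb
      refine ⟨.q ⟨t.val, by omega⟩, trivial, .q ⟨t.val + 1, by omega⟩, trivial, by simp,
        Or.inr (Or.inl rfl), Or.inr (Or.inr rfl), ?_⟩
      intro y hy hadj
      cases y with
      | q t' =>
        simp [graph, EdgeRel] at hadj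
        rcases hadj with h | h
        · left; rw [show t' = ⟨t.val, by omega⟩ from Fin.ext h]
        · right; rw [show t' = ⟨t.val + 1, by omega⟩ from Fin.ext h]
      | p t' => simp [graph, EdgeRel] at hadj
      | a' t' b => simp [graph, EdgeRel] at hadj
      | a t' b =>
        simp [graph, EdgeRel] at hadj
        have hb : b = a t' := hy
        subst hb
        exact absurd (by rw [hadj.1]) hadj.2
      | l j k =>
        simp [graph, EdgeRel] at hadj
        exact absurd hadj (not_contra_of_first (show φ.First a j k from hy) t)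
      | z => simp [graph, EdgeRel] at hadj
    | l j k =>
      refine ⟨.p ⟨φ.n + j.val, by omega⟩, trivial, .p ⟨φ.n + j.val + 1, by omega⟩, trivial,
        by simp, Or.inr (Or.inl rfl), Or.inr (Or.inr rfl), ?_⟩
      intro y hy hadj
      cases y with
      | p t' =>
        simp [graph, EdgeRel] at hadj
        rcases hadj with h | h
        · left; rw [show t' = ⟨φ.n + j.val, by omega⟩ from Fin.ext h]
        · right; rw [show t' = ⟨φ.n + j.val + 1, by omega⟩ from Fin.ext h]
      | q t' => simp [graph, EdgeRel] at hadj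
      | a t' b =>
        simp [graph, EdgeRel] at hadj
        have hb : b = a t' := hy
        subst hb
        exact absurd hadj (not_contra_of_first (show φ.First a j k from hx) t')
      | a' t' b =>
        simp [graph, EdgeRel] at hadj
        have hb : b = a t' := hy
        subst hb
        exact absurd hadj (not_contra_of_first (show φ.First a j k from hx) t')
      | l j' k' => simp [graph, EdgeRel] at hadj
      | z => simp [graph, EdgeRel] at hadj
    | z =>
      refine ⟨.p ⟨φ.n + φ.m, by omega⟩, trivial, .q ⟨φ.n, by omega⟩, trivial, by simp,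
        Or.inr rfl, Or.inr rfl, ?_⟩
      intro y hy hadj
      cases y with
      | p t' =>
        simp [graph, EdgeRel] at hadj
        left; rw [show t' = ⟨φ.n + φ.m, by omega⟩ from Fin.ext hadj]
      | q t' =>
        simp [graph, EdgeRel] at hadj
        right; rw [show t' = ⟨φ.n, by omega⟩ from Fin.ext hadj]
      | a t' b => simp [graph, EdgeRel] at hadj
      | a' t' b => simp [graph, EdgeRel] at hadj
      | l j' k' => simp [graph, EdgeRel] at hadj
      | z => simp [graph, EdgeRel] at hadj
  · intro D hD hne hcl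
    have hiff : ∀ x y, x ∈ φ.SA a → y ∈ φ.SA a → φ.graph.Adj x y → (x ∈ D ↔ y ∈ D) :=
      fun x y hx hy hadj => ⟨fun h => hcl x h y hy hadj, fun h => hcl y h x hx hadj.symm⟩
    -- everything is equivalent to `p 0`
    have hP : ∀ t : ℕ, ∀ ht : t < φ.n + φ.m + 1, (Vx.p ⟨t, ht⟩ ∈ D ↔ Vx.p ⟨0, by omega⟩ ∈ D) := by
      intro t
      induction t with
      | zero => intro _; exact Iff.rfl
      | succ t ih =>
        intro ht
        rw [← ih (by omega)]
        by_cases h : t < φ.n
        · rw [hiff (.p ⟨t + 1, ht⟩) (.a ⟨t, h⟩ (a ⟨t, h⟩)) trivial rfl (Or.inl (Or.inr rfl)),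
            hiff (.p ⟨t, by omega⟩) (.a ⟨t, h⟩ (a ⟨t, h⟩)) trivial rfl (Or.inl (Or.inl rfl))]
        · obtain ⟨k, hk⟩ := first_l ha (j := ⟨t - φ.n, by omega⟩)
          rw [hiff (.p ⟨t + 1, ht⟩) (.l ⟨t - φ.n, by omega⟩ k) trivial hk
              (Or.inl (Or.inr (by simp; omega))),
            hiff (.p ⟨t, by omega⟩) (.l ⟨t - φ.n, by omega⟩ k) trivial hk
              (Or.inl (Or.inl (by simp; omega)))]
    have hQ : ∀ t : ℕ, ∀ ht : t < φ.n + 1, (Vx.q ⟨t, ht⟩ ∈ D ↔ Vx.p ⟨0, by omega⟩ ∈ D) := by
      intro t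
      induction t with
      | zero =>
        intro ht
        exact hiff _ _ trivial trivial (Or.inr ⟨rfl, rfl⟩)
      | succ t ih =>
        intro ht
        rw [← ih (by omega)]
        have h : t < φ.n := by omega
        rw [hiff (.q ⟨t + 1, ht⟩) (.a' ⟨t, h⟩ (a ⟨t, h⟩)) trivial rfl (Or.inl (Or.inr rfl)),
            hiff (.q ⟨t, by omega⟩) (.a' ⟨t, h⟩ (a ⟨t, h⟩)) trivial rfl (Or.inl (Or.inl rfl))]
    have hall : ∀ x ∈ φ.SA a, (x ∈ D ↔ Vx.p ⟨0, by omega⟩ ∈ D) := by
      intro x hx
      cases x with
      | p t => exact hP t.val t.2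
      | q t => exact hQ t.val t.2
      | a t b =>
        rw [hiff (.a t b) (.p ⟨t.val, by omega⟩) hx trivial (Or.inr (Or.inl rfl))]
        exact hP _ _
      | a' t b =>
        rw [hiff (.a' t b) (.q ⟨t.val, by omega⟩) hx trivial (Or.inr (Or.inl rfl))]
        exact hQ _ _
      | l j k =>
        rw [hiff (.l j k) (.p ⟨φ.n + j.val, by omega⟩) hx trivial (Or.inr (Or.inl rfl))]
        exact hP _ _
      | z =>
        rw [hiff .z (.q ⟨φ.n, by omega⟩) hx trivial (Or.inr rfl)]
        exact hQ _ _
    obtain ⟨x, hx⟩ := hne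
    have h0 := (hall x (hD hx)).1 hx
    intro y hy
    exact (hall y hy).2 h0

end CNF

end Pool.Agent.Lib.MP_275a7d_co
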