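import Pool.Agent.Lib.MP_275a7d_co.SatFwd

/-!
The clause part, and the set of a satisfying assignment.
-/

namespace Pool.Agent.Lib.MP_275a7d_co

open SimpleGraph

namespace CNF

variable {φ : CNF} {S : Set (Vx φ)}

/-- The `k`-th literal of the clause `j` is its first literal which is true under `a`. -/
def First (φ : CNF) (a : Fin φ.n → Bool) (j : Fin φ.m) (k : Fin (φ.clause j).length) : Prop :=
  a ((φ.clause j).get k).1 = ((φ.clause j).get k).2 ∧
    ∀ k' < k, a ((φ.clause j).get k').1 ≠ ((φ.clause j).get k').2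

/-- The vertices of the circle of the assignment `a`. -/
def SA (φ : CNF) (a : Fin φ.n → Bool) : Set (Vx φ) := fun x =>
  match x with
  | .p _ => True
  | .q _ => True
  | .a t b => b = a t
  | .a' t b => b = a t
  | .l j k => φ.First a j k
  | .z => True

theorem First.uniq {a : Fin φ.n → Bool} {j : Fin φ.m} {k k' : Fin (φ.clause j).length}
    (h : φ.First a j k) (h' : φ.First a j k') : k = k' := by
  rcases lt_trichotomy k k' with hlt | heq | hlt
  · exact absurd h.1 (h'.2 k hlt)
  · exact heq
  · exact absurd h'.1 (h.2 k' hlt)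

theorem not_contra_of_first {a : Fin φ.n → Bool} {j : Fin φ.m} {k : Fin (φ.clause j).length}
    (h : φ.First a j k) (t : Fin φ.n) : ¬ φ.Contra j k t (a t) := by
  rintro (h1 | ⟨k', hk', h1⟩)
  · have := h.1
    rw [h1] at this
    simp at this
  · have := h.2 k' hk'
    rw [h1] at this
    simp at this

theorem first_of_not_contra {a : Fin φ.n → Bool} {j : Fin φ.m} {k : Fin (φ.clause j).length}
    (h : ∀ t, ¬ φ.Contra j k t (a t)) : φ.First a j k := by
  constructor
  · by_contra hne
    apply h ((φ.clause j).get k).1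
    left
    ext
    · rfl
    · show ((φ.clause j).get k).2 = !(a ((φ.clause j).get k).1)
      revert hne
      cases a ((φ.clause j).get k).1 <;> cases ((φ.clause j).get k).2 <;> simp
  · intro k' hk' he
    apply h ((φ.clause j).get k').1
    right
    exact ⟨k', hk', by rw [he]⟩

theorem sat_iff_first (a : Fin φ.n → Bool) : φ.Sat a ↔ ∀ j, ∃ k, φ.First a j k := by
  classical
  constructor
  · intro h j
    obtain ⟨l, hl, ha⟩ := h j
    obtain ⟨k0, hk0⟩ := List.get_of_mem hl
    set T : Finset (Fin (φ.clause j).length) :=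
      Finset.univ.filter (fun k => a ((φ.clause j).get k).1 = ((φ.clause j).get k).2) with hT
    have hne : T.Nonempty := ⟨k0, by simp only [hT, Finset.mem_filter, Finset.mem_univ, true_and]; rw [hk0]; exact ha⟩
    refine ⟨T.min' hne, ?_, ?_⟩
    · have := T.min'_mem hne
      simpa only [hT, Finset.mem_filter, Finset.mem_univ, true_and] using this
    · intro k' hk' he
      have : k' ∈ T := by simp only [hT, Finset.mem_filter, Finset.mem_univ, true_and]; exact he
      exact absurd (T.min'_le k' this) (not_le.2 hk')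
  · intro h j
    obtain ⟨k, hk⟩ := h j
    exact ⟨_, List.get_mem _ _, hk.1⟩

/-- `S` passes the first `j` clause gadgets properly. -/
structure Inv2 (S : Set (Vx φ)) (j : ℕ) : Prop where
  p : ∀ t : Fin (φ.n + φ.m + 1), t.val ≤ φ.n + j → Vx.p t ∈ S
  l : ∀ t : Fin φ.m, t.val < j → ∃ k, Vx.l t k ∈ S ∧ ∀ k', Vx.l t k' ∈ S → k' = k

theorem no_contra (hS : CSet φ.graph S) (I : Inv S φ.n) {j : Fin φ.m}
    {k : Fin (φ.clause j).length} (hl : Vx.l j k ∈ S) {t : Fin φ.n} {b : Bool}
    (hb : Vx.a t b ∈ S) : ¬ φ.Contra j k t b := by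
  intro h
  have h1 : Vx.p ⟨t.val, by omega⟩ ∈ S := I.p _ (by simp)
  have h2 : Vx.p ⟨t.val + 1, by omega⟩ ∈ S := I.p _ (by simp)
  rcases hS.three hb h1 h2 hl (Or.inr (Or.inl rfl)) (Or.inr (Or.inr rfl)) (Or.inr h) (by simp)
    with h' | h' <;> simp at h'

theorem no_contra' (hS : CSet φ.graph S) (I : Inv S φ.n) {j : Fin φ.m}
    {k : Fin (φ.clause j).length} (hl : Vx.l j k ∈ S) {t : Fin φ.n} {b : Bool}
    (hb : Vx.a' t b ∈ S) : ¬ φ.Contra j k t b := by
  intro h
  have h1 : Vx.q ⟨t.val, by omega⟩ ∈ S := I.q _ (by simp)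
  have h2 : Vx.q ⟨t.val + 1, by omega⟩ ∈ S := I.q _ (by simp)
  rcases hS.three hb h1 h2 hl (Or.inr (Or.inl rfl)) (Or.inr (Or.inr rfl)) (Or.inr h) (by simp)
    with h' | h' <;> simp at h'

theorem step2 (hS : CSet φ.graph S) (I : Inv S φ.n) {j : ℕ} (hj : j < φ.m) (J : Inv2 S j) :
    Inv2 S (j + 1) := by
  have hpj : Vx.p ⟨φ.n + j, by omega⟩ ∈ S := J.p _ le_rfl
  -- the lower neighbour
  obtain ⟨yp, hyp, hap, hnl, hup⟩ : ∃ y ∈ S, φ.graph.Adj (.p ⟨φ.n + j, by omega⟩) y ∧
      (∀ k, y ≠ .l ⟨j, hj⟩ k) ∧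
      ∀ y' ∈ S, φ.graph.Adj (.p ⟨φ.n + j, by omega⟩) y' → y' = y ∨ ∃ k, y' = .l ⟨j, hj⟩ k := by
    rcases Nat.eq_zero_or_pos j with rfl | hjp
    · obtain ⟨y, hy, hl, hadj, hu⟩ := lowP le_rfl I
      refine ⟨y, hy, hadj, ?_, ?_⟩
      · rintro k rfl; simp [Low] at hl
      · intro y' hy' hadj'
        cases y' with
        | p t => simp [graph, EdgeRel] at hadj'
        | q t => exact Or.inl (hu _ hy' hadj' (by simp only [Low]; omega))
        | a t b => exact Or.inl (hu _ hy' hadj' (by simp only [Low]; omega))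
        | a' t b => simp [graph, EdgeRel] at hadj'
        | l j' k =>
          simp [graph, EdgeRel] at hadj'
          rcases hadj' with h | h
          · right
            have : j' = ⟨0, hj⟩ := Fin.ext (by simp; omega)
            subst this
            exact ⟨k, rfl⟩
          · omega
        | z => simp [graph, EdgeRel] at hadj'; omega
    · have hj1 : j - 1 < φ.m := by omega
      obtain ⟨k, hk, huk⟩ := J.l ⟨j - 1, hj1⟩ (by simp; omega)
      refine ⟨_, hk, Or.inl (Or.inr (by simp; omega)), ?_, ?_⟩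
      · intro k' h; simp at h; omega
      · intro y' hy' hadj'
        cases y' with
        | p t => simp [graph, EdgeRel] at hadj'
        | q t => simp [graph, EdgeRel] at hadj'; omega
        | a t b => simp [graph, EdgeRel] at hadj'; omega
        | a' t b => simp [graph, EdgeRel] at hadj'
        | l j' k' =>
          simp [graph, EdgeRel] at hadj'
          rcases hadj' with h | h
          · right
            have : j' = ⟨j, hj⟩ := Fin.ext (by simp; omega)
            subst this
            exact ⟨k', rfl⟩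
          · left
            have : j' = ⟨j - 1, hj1⟩ := Fin.ext (by simp; omega)
            subst this
            rw [huk k' hy']
        | z => simp [graph, EdgeRel] at hadj'; omega
  obtain ⟨k, hk⟩ : ∃ k, Vx.l ⟨j, hj⟩ k ∈ S := by
    obtain ⟨y2, h2, hne, hadj⟩ := hS.second (y1 := yp) hpj
    rcases hup y2 h2 hadj with h | ⟨k, rfl⟩
    · exact absurd h hne
    · exact ⟨k, h2⟩
  have huk : ∀ k', Vx.l ⟨j, hj⟩ k' ∈ S → k' = k := by
    intro k' hk'
    rcases hS.three hpj hyp hk hk' hap (Or.inl (Or.inl rfl)) (Or.inl (Or.inl rfl)) (hnl k)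
      with h | h
    · exact absurd h.symm (hnl k')
    · simpa using h
  have hp1 : Vx.p ⟨φ.n + j + 1, by omega⟩ ∈ S := by
    obtain ⟨y2, h2, hne, hadj⟩ := hS.second (y1 := .p ⟨φ.n + j, by omega⟩) hk
    cases y2 with
    | p t =>
      simp [graph, EdgeRel] at hadj
      rcases hadj with h | h
      · exact absurd (by rw [show t = ⟨φ.n + j, by omega⟩ from Fin.ext h]) hne
      · rw [show t = ⟨φ.n + j + 1, by omega⟩ from Fin.ext h] at h2; exact h2
    | q t => simp [graph, EdgeRel] at hadj
    | a t b =>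
      simp [graph, EdgeRel] at hadj
      exact absurd hadj (no_contra hS I hk h2)
    | a' t b =>
      simp [graph, EdgeRel] at hadj
      exact absurd hadj (no_contra' hS I hk h2)
    | l j' k' => simp [graph, EdgeRel] at hadj
    | z => simp [graph, EdgeRel] at hadj
  constructor
  · intro t ht
    rcases Nat.lt_or_ge (φ.n + j) t.val with h | h
    · rw [show t = ⟨φ.n + j + 1, by omega⟩ from Fin.ext (by simp; omega)]; exact hp1
    · exact J.p t h
  · intro t ht
    rcases Nat.lt_or_ge t.val j with h | h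
    · exact J.l t h
    · have : t = ⟨j, hj⟩ := Fin.ext (by simp; omega)
      subst this
      exact ⟨k, hk, huk⟩

/-- A chordless circle through the two special edges is the circle of a satisfying assignment. -/
theorem forward (hS : CSet φ.graph S) (hlast : φ.pLast ∈ S) (hp : φ.pZero ∈ S) (hq : φ.qZero ∈ S)
    (hz : Vx.z ∈ S) : ∃ a, φ.Sat a ∧ S = φ.SA a := by
  have I := inv_all hS hlast hp hq φ.n le_rfl
  have J : ∀ j ≤ φ.m, Inv2 S j := by
    intro j
    induction j with
    | zero => exact fun _ => ⟨fun t ht => I.p t ht, fun t ht => by omega⟩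
    | succ j ih => exact fun h => step2 hS I h (ih (by omega))
  have J := J φ.m le_rfl
  choose a ha ha' hna hna' using fun t : Fin φ.n => I.a t t.2
  have hA : ∀ t b, Vx.a t b ∈ S ↔ b = a t := by
    intro t b
    exact ⟨fun h => I.uniqA t.2 h (ha t), fun h => h ▸ ha t⟩
  have hA' : ∀ t b, Vx.a' t b ∈ S ↔ b = a t := by
    intro t b
    exact ⟨fun h => I.uniqA' t.2 h (ha' t), fun h => h ▸ ha' t⟩
  have hfirst : ∀ j k, Vx.l j k ∈ S → φ.First a j k := by
    intro j k hl
    exact first_of_not_contra (fun t => no_contra hS I hl (ha t))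
  refine ⟨a, ?_, ?_⟩
  · rw [sat_iff_first]
    intro j
    obtain ⟨k, hk, -⟩ := J.l j j.2
    exact ⟨k, hfirst j k hk⟩
  · ext x
    cases x with
    | p t => exact ⟨fun _ => trivial, fun _ => J.p t (by omega)⟩
    | q t => exact ⟨fun _ => trivial, fun _ => I.q t (by omega)⟩
    | a t b => exact hA t b
    | a' t b => exact hA' t b
    | l j k =>
      refine ⟨fun h => hfirst j k h, fun h => ?_⟩
      obtain ⟨k', hk', -⟩ := J.l j j.2
      rw [First.uniq (show φ.First a j k from h) (hfirst j k' hk')]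
      exact hk'
    | z => exact ⟨fun _ => trivial, fun _ => hz⟩

end CNF

end Pool.Agent.Lib.MP_275a7d_co
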