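import Pool.Agent.Lib.MP_275a7d_co.CSet
import Pool.Agent.Lib.MP_275a7d_co.Gadget

/-!
Every chordless circle through the two special edges comes from a satisfying assignment.
-/

namespace Pool.Agent.Lib.MP_275a7d_co

open SimpleGraph

section general

variable {V : Type} {G : SimpleGraph V} {S : Set V}

theorem CSet.three (hS : CSet G S) {x y1 y2 y3 : V} (hx : x ∈ S) (h1 : y1 ∈ S) (h2 : y2 ∈ S)
    (h3 : y3 ∈ S) (a1 : G.Adj x y1) (a2 : G.Adj x y2) (a3 : G.Adj x y3) (hne : y1 ≠ y2) :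
    y3 = y1 ∨ y3 = y2 := by
  obtain ⟨z1, -, z2, -, -, -, -, h⟩ := hS.deg2 x hx
  have e1 := h y1 h1 a1
  have e2 := h y2 h2 a2
  have e3 := h y3 h3 a3
  rcases e1 with rfl | rfl <;> rcases e2 with rfl | rfl <;> rcases e3 with rfl | rfl <;> simp_all

theorem CSet.second (hS : CSet G S) {x y1 : V} (hx : x ∈ S) :
    ∃ y2 ∈ S, y2 ≠ y1 ∧ G.Adj x y2 := by
  obtain ⟨z1, h1, z2, h2, hne, a1, a2, -⟩ := hS.deg2 x hx
  by_cases h : z1 = y1
  · exact ⟨z2, h2, fun h' => hne (h.trans h'.symm), a2⟩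
  · exact ⟨z1, h1, h, a1⟩

theorem CSet.closed (hS : CSet G S) (D : Set V) (hD : D ⊆ S) (hne : D.Nonempty)
    (h : ∀ x ∈ D, ∃ y1 ∈ D, ∃ y2 ∈ D, y1 ≠ y2 ∧ G.Adj x y1 ∧ G.Adj x y2) : S ⊆ D := by
  apply hS.conn D hD hne
  intro x hx y hy hxy
  obtain ⟨y1, h1, y2, h2, hne, a1, a2⟩ := h x hx
  rcases hS.three (hD hx) (hD h1) (hD h2) hy a1 a2 hxy hne with rfl | rfl
  · exact h1
  · exact h2

end general

namespace CNF

variable {φ : CNF}

/-- The vertices of the variable gadgets before the level `i`. -/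
def Low (i : ℕ) : Vx φ → Prop
  | .p t => t.val ≤ i
  | .q t => t.val ≤ i
  | .a t _ => t.val < i
  | .a' t _ => t.val < i
  | .l _ _ => False
  | .z => False

/-- `S` passes the variable gadgets before `i` properly. -/
structure Inv (S : Set (Vx φ)) (i : ℕ) : Prop where
  p : ∀ t : Fin (φ.n + φ.m + 1), t.val ≤ i → Vx.p t ∈ S
  q : ∀ t : Fin (φ.n + 1), t.val ≤ i → Vx.q t ∈ S
  a : ∀ t : Fin φ.n, t.val < i → ∃ b, Vx.a t b ∈ S ∧ Vx.a' t b ∈ S ∧ Vx.a t (!b) ∉ S ∧
    Vx.a' t (!b) ∉ S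

variable {S : Set (Vx φ)}

theorem Inv.uniqA {i : ℕ} (I : Inv S i) {t : Fin φ.n} (ht : t.val < i) {b c : Bool}
    (hb : Vx.a t b ∈ S) (hc : Vx.a t c ∈ S) : b = c := by
  obtain ⟨d, -, -, hn, -⟩ := I.a t ht
  have key : ∀ e : Bool, Vx.a t e ∈ S → e = d := by
    intro e he
    by_contra h
    exact hn (by rw [show (!d) = e by cases e <;> cases d <;> simp_all]; exact he)
  rw [key b hb, key c hc]

theorem Inv.uniqA' {i : ℕ} (I : Inv S i) {t : Fin φ.n} (ht : t.val < i) {b c : Bool}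
    (hb : Vx.a' t b ∈ S) (hc : Vx.a' t c ∈ S) : b = c := by
  obtain ⟨d, -, -, -, hn⟩ := I.a t ht
  have key : ∀ e : Bool, Vx.a' t e ∈ S → e = d := by
    intro e he
    by_contra h
    exact hn (by rw [show (!d) = e by cases e <;> cases d <;> simp_all]; exact he)
  rw [key b hb, key c hc]

/-- The lower neighbour of `p i`. -/
theorem lowP {i : ℕ} (hi : i ≤ φ.n) (I : Inv S i) :
    ∃ y ∈ S, Low i y ∧ φ.graph.Adj (.p ⟨i, by omega⟩) y ∧
      ∀ y' ∈ S, φ.graph.Adj (.p ⟨i, by omega⟩) y' → Low i y' → y' = y := by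
  by_cases h0 : i = 0
  · subst h0
    refine ⟨.q ⟨0, by omega⟩, I.q _ le_rfl, le_rfl, Or.inl ⟨rfl, rfl⟩, ?_⟩
    intro y' _ hadj hlow
    cases y' with
    | p t => simp [graph, EdgeRel] at hadj
    | q t => simp only [Low] at hlow; rw [show t = ⟨0, by omega⟩ from Fin.ext (by simpa using hlow)]
    | a t b => simp [Low] at hlow
    | a' t b => simp [Low] at hlow
    | l j k => simp [Low] at hlow
    | z => simp [Low] at hlow
  · obtain ⟨b, hb, -, -, -⟩ := I.a ⟨i - 1, by omega⟩ (by simp; omega)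
    refine ⟨.a ⟨i - 1, by omega⟩ b, hb, by simp [Low]; omega, Or.inl (Or.inr (by simp; omega)), ?_⟩
    intro y' hy' hadj hlow
    cases y' with
    | p t => simp [graph, EdgeRel] at hadj
    | q t => simp [graph, EdgeRel] at hadj; omega
    | a t c =>
      simp only [Low] at hlow
      simp [graph, EdgeRel] at hadj
      have ht : t = ⟨i - 1, by omega⟩ := Fin.ext (by simp; omega)
      rw [ht] at hy' ⊢
      rw [I.uniqA (by simp; omega) hb hy']
    | a' t b => simp [graph, EdgeRel] at hadj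
    | l j k => simp [Low] at hlow
    | z => simp [Low] at hlow

/-- The lower neighbour of `q i`. -/
theorem lowQ {i : ℕ} (hi : i ≤ φ.n) (I : Inv S i) :
    ∃ y ∈ S, Low i y ∧ φ.graph.Adj (.q ⟨i, by omega⟩) y ∧
      ∀ y' ∈ S, φ.graph.Adj (.q ⟨i, by omega⟩) y' → Low i y' → y' = y := by
  by_cases h0 : i = 0
  · subst h0
    refine ⟨.p ⟨0, by omega⟩, I.p _ le_rfl, le_rfl, Or.inr ⟨rfl, rfl⟩, ?_⟩
    intro y' _ hadj hlow
    cases y' with
    | p t => simp only [Low] at hlow; rw [show t = ⟨0, by omega⟩ from Fin.ext (by simpa using hlow)]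
    | q t => simp [graph, EdgeRel] at hadj
    | a t b => simp [Low] at hlow
    | a' t b => simp [Low] at hlow
    | l j k => simp [Low] at hlow
    | z => simp [Low] at hlow
  · obtain ⟨b, -, hb, -, -⟩ := I.a ⟨i - 1, by omega⟩ (by simp; omega)
    refine ⟨.a' ⟨i - 1, by omega⟩ b, hb, by simp [Low]; omega, Or.inl (Or.inr (by simp; omega)), ?_⟩
    intro y' hy' hadj hlow
    cases y' with
    | p t => simp [graph, EdgeRel] at hadj; omega
    | q t => simp [graph, EdgeRel] at hadj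
    | a' t c =>
      simp only [Low] at hlow
      simp [graph, EdgeRel] at hadj
      have ht : t = ⟨i - 1, by omega⟩ := Fin.ext (by simp; omega)
      rw [ht] at hy' ⊢
      rw [I.uniqA' (by simp; omega) hb hy']
    | a t b => simp [graph, EdgeRel] at hadj
    | l j k => simp [Low] at hlow
    | z => simp [Low] at hlow

/-- All low vertices other than `p i`, `q i` have two low neighbours. -/
theorem lowTwo {i : ℕ} (hi : i ≤ φ.n) (I : Inv S i) (x : Vx φ) (hxS : x ∈ S) (hx : Low i x)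
    (hp : x ≠ .p ⟨i, by omega⟩) (hq : x ≠ .q ⟨i, by omega⟩) :
    ∃ y1 ∈ S, ∃ y2 ∈ S, Low i y1 ∧ Low i y2 ∧ y1 ≠ y2 ∧ φ.graph.Adj x y1 ∧ φ.graph.Adj x y2 := by
  cases x with
  | p t =>
    simp only [Low] at hx
    have hlt : t.val < i := by
      rcases Nat.lt_or_ge t.val i with h | h
      · exact h
      · exact absurd (by congr 1; ext; simp; omega) hp
    obtain ⟨b, hb, -, -, -⟩ := I.a ⟨t.val, by omega⟩ hlt
    by_cases h0 : t.val = 0
    · exact ⟨.q ⟨0, by omega⟩, I.q _ (by simp), .a ⟨t.val, by omega⟩ b, hb, by simp [Low],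
        by simpa [Low] using hlt, by simp, Or.inl ⟨h0, rfl⟩, Or.inl (Or.inl rfl)⟩
    · obtain ⟨c, hc, -, -, -⟩ := I.a ⟨t.val - 1, by omega⟩ (by simp; omega)
      refine ⟨.a ⟨t.val - 1, by omega⟩ c, hc, .a ⟨t.val, by omega⟩ b, hb, by simp [Low]; omega,
        by simpa [Low] using hlt, ?_, Or.inl (Or.inr (by simp; omega)), Or.inl (Or.inl rfl)⟩
      intro h
      simp at h
      omega
  | q t =>
    simp only [Low] at hx
    have hlt : t.val < i := by
      rcases Nat.lt_or_ge t.val i with h | h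
      · exact h
      · exact absurd (by congr 1; ext; simp; omega) hq
    obtain ⟨b, -, hb, -, -⟩ := I.a ⟨t.val, by omega⟩ hlt
    by_cases h0 : t.val = 0
    · exact ⟨.p ⟨0, by omega⟩, I.p _ (by simp), .a' ⟨t.val, by omega⟩ b, hb, by simp [Low],
        by simpa [Low] using hlt, by simp, Or.inr ⟨rfl, h0⟩, Or.inl (Or.inl rfl)⟩
    · obtain ⟨c, -, hc, -, -⟩ := I.a ⟨t.val - 1, by omega⟩ (by simp; omega)
      refine ⟨.a' ⟨t.val - 1, by omega⟩ c, hc, .a' ⟨t.val, by omega⟩ b, hb, by simp [Low]; omega,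
        by simpa [Low] using hlt, ?_, Or.inl (Or.inr (by simp; omega)), Or.inl (Or.inl rfl)⟩
      intro h
      simp at h
      omega
  | a t b =>
    simp only [Low] at hx
    refine ⟨.p ⟨t.val, by omega⟩, I.p _ (by simp; omega), .p ⟨t.val + 1, by omega⟩,
      I.p _ (by simp; omega), by simp [Low]; omega, by simp [Low]; omega, by simp,
      Or.inr (Or.inl rfl), Or.inr (Or.inr rfl)⟩
  | a' t b =>
    simp only [Low] at hx
    refine ⟨.q ⟨t.val, by omega⟩, I.q _ (by simp; omega), .q ⟨t.val + 1, by omega⟩,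
      I.q _ (by simp; omega), by simp [Low]; omega, by simp [Low]; omega, by simp,
      Or.inr (Or.inl rfl), Or.inr (Or.inr rfl)⟩
  | l j k => simp [Low] at hx
  | z => simp [Low] at hx

/-- Closing up: `S` is the low part and `E`. -/
theorem closeup (hS : CSet φ.graph S) {i : ℕ} (hi : i ≤ φ.n) (I : Inv S i) (E : Set (Vx φ))
    (hE : E ⊆ S) (hp : ∃ y ∈ E, φ.graph.Adj (.p ⟨i, by omega⟩) y ∧ ¬ Low i y)
    (hq : ∃ y ∈ E, φ.graph.Adj (.q ⟨i, by omega⟩) y ∧ ¬ Low i y)
    (hE2 : ∀ x ∈ E, ∃ y1, (y1 ∈ E ∨ (y1 ∈ S ∧ Low i y1)) ∧ ∃ y2, (y2 ∈ E ∨ (y2 ∈ S ∧ Low i y2)) ∧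
      y1 ≠ y2 ∧ φ.graph.Adj x y1 ∧ φ.graph.Adj x y2) :
    ∀ x ∈ S, x ∈ E ∨ Low i x := by
  have h := hS.closed {x | x ∈ E ∨ (x ∈ S ∧ Low i x)} (by rintro x (h | h); exacts [hE h, h.1])
    ⟨.p ⟨0, by omega⟩, Or.inr ⟨I.p _ (by simp), by simp [Low]⟩⟩ (by
      rintro x (hx | ⟨hxS, hx⟩)
      · obtain ⟨y1, h1, y2, h2, h⟩ := hE2 x hx
        exact ⟨y1, h1, y2, h2, h⟩
      · by_cases h1 : x = .p ⟨i, by omega⟩
        · subst h1
          obtain ⟨y, hy, hadj, hn⟩ := hp
          obtain ⟨y', hy', hl, hadj', -⟩ := lowP hi I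
          exact ⟨y', Or.inr ⟨hy', hl⟩, y, Or.inl hy, fun h => hn (h ▸ hl), hadj', hadj⟩
        · by_cases h2 : x = .q ⟨i, by omega⟩
          · subst h2
            obtain ⟨y, hy, hadj, hn⟩ := hq
            obtain ⟨y', hy', hl, hadj', -⟩ := lowQ hi I
            exact ⟨y', Or.inr ⟨hy', hl⟩, y, Or.inl hy, fun h => hn (h ▸ hl), hadj', hadj⟩
          · obtain ⟨y1, s1, y2, s2, l1, l2, h⟩ := lowTwo hi I x hxS hx h1 h2
            exact ⟨y1, Or.inr ⟨s1, l1⟩, y2, Or.inr ⟨s2, l2⟩, h⟩)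
  intro x hx
  rcases h hx with h | h
  · exact Or.inl h
  · exact Or.inr h.2

/-- One variable gadget. -/
theorem step (hS : CSet φ.graph S) (hlast : φ.pLast ∈ S) {i : ℕ} (hi : i < φ.n) (I : Inv S i) :
    Inv S (i + 1) := by
  have hpi : Vx.p ⟨i, by omega⟩ ∈ S := I.p _ le_rfl
  have hqi : Vx.q ⟨i, by omega⟩ ∈ S := I.q _ le_rfl
  -- `p (n + m)` is not in the closed sets
  have hfin : ∀ E : Set (Vx φ), (∀ x ∈ S, x ∈ E ∨ Low i x) → φ.pLast ∉ E → False := by
    intro E h hE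
    rcases h _ hlast with h | h
    · exact hE h
    · simp only [pLast, Low] at h
      omega
  obtain ⟨yp, hyp, hlp, hap, hup⟩ := lowP hi.le I
  obtain ⟨yq, hyq, hlq, haq, huq⟩ := lowQ hi.le I
  -- the upper neighbours
  obtain ⟨b, hb⟩ : ∃ b, Vx.a ⟨i, hi⟩ b ∈ S := by
    obtain ⟨y2, h2, hne, hadj⟩ := hS.second (y1 := yp) hpi
    cases y2 with
    | p t => simp [graph, EdgeRel] at hadj
    | q t =>
      have h := hadj
      simp [graph, EdgeRel] at h
      exact absurd (hup _ h2 hadj (by simp only [Low]; rw [h.2]; simp)) hne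
    | a t c =>
      have h := hadj
      simp [graph, EdgeRel] at h
      rcases h with h | h
      · exact ⟨c, by rw [show (⟨i, hi⟩ : Fin φ.n) = t from Fin.ext h]; exact h2⟩
      · exact absurd (hup _ h2 hadj (by simp only [Low]; omega)) hne
    | a' t c => simp [graph, EdgeRel] at hadj
    | l j k => simp [graph, EdgeRel] at hadj; omega
    | z => simp [graph, EdgeRel] at hadj; omega
  obtain ⟨c, hc⟩ : ∃ c, Vx.a' ⟨i, hi⟩ c ∈ S := by
    obtain ⟨y2, h2, hne, hadj⟩ := hS.second (y1 := yq) hqi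
    cases y2 with
    | q t => simp [graph, EdgeRel] at hadj
    | p t =>
      have h := hadj
      simp [graph, EdgeRel] at h
      exact absurd (huq _ h2 hadj (by simp only [Low]; rw [h.1]; simp)) hne
    | a' t c =>
      have h := hadj
      simp [graph, EdgeRel] at h
      rcases h with h | h
      · exact ⟨c, by rw [show (⟨i, hi⟩ : Fin φ.n) = t from Fin.ext h]; exact h2⟩
      · exact absurd (huq _ h2 hadj (by simp only [Low]; omega)) hne
    | a t c => simp [graph, EdgeRel] at hadj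
    | l j k => simp [graph, EdgeRel] at hadj
    | z => simp [graph, EdgeRel] at hadj; omega
  have hbc : b = c := by
    by_contra hne
    refine hfin {Vx.a ⟨i, hi⟩ b, Vx.a' ⟨i, hi⟩ c} (closeup hS hi.le I _ ?_ ?_ ?_ ?_) ?_
    · rintro x (rfl | rfl); exacts [hb, hc]
    · exact ⟨_, Or.inl rfl, Or.inl (Or.inl rfl), by simp [Low]⟩
    · exact ⟨_, Or.inr rfl, Or.inl (Or.inl rfl), by simp [Low]⟩
    · rintro x (rfl | rfl)
      · exact ⟨.p ⟨i, by omega⟩, Or.inr ⟨hpi, by simp [Low]⟩, Vx.a' ⟨i, hi⟩ c, Or.inl (Or.inr rfl),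
          by simp, Or.inr (Or.inl rfl), Or.inl ⟨rfl, hne⟩⟩
      · exact ⟨.q ⟨i, by omega⟩, Or.inr ⟨hqi, by simp [Low]⟩, Vx.a ⟨i, hi⟩ b, Or.inl (Or.inl rfl),
          by simp, Or.inr (Or.inl rfl), Or.inr ⟨rfl, hne⟩⟩
    · rintro (h | h) <;> simp [pLast] at h
  subst hbc
  -- the other literal vertices are not in `S`
  have hnb : Vx.a ⟨i, hi⟩ (!b) ∉ S := by
    intro h
    rcases hS.three hpi hyp hb h hap (Or.inl (Or.inl rfl)) (Or.inl (Or.inl rfl))
      (fun h' => by rw [h'] at hlp; simp [Low] at hlp) with h' | h'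
    · rw [← h'] at hlp; simp [Low] at hlp
    · simp at h'
  have hnc : Vx.a' ⟨i, hi⟩ (!b) ∉ S := by
    intro h
    rcases hS.three hqi hyq hc h haq (Or.inl (Or.inl rfl)) (Or.inl (Or.inl rfl))
      (fun h' => by rw [h'] at hlq; simp [Low] at hlq) with h' | h'
    · rw [← h'] at hlq; simp [Low] at hlq
    · simp at h'
  -- no vertex `l j k` is adjacent to the literal vertices of this gadget
  have hnl : ∀ j k, Vx.l j k ∈ S → ¬ φ.Contra j k ⟨i, hi⟩ b := by
    intro j k hl hcon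
    refine hfin {Vx.a ⟨i, hi⟩ b, Vx.a' ⟨i, hi⟩ b, Vx.l j k} (closeup hS hi.le I _ ?_ ?_ ?_ ?_) ?_
    · rintro x (rfl | rfl | rfl); exacts [hb, hc, hl]
    · exact ⟨_, Or.inl rfl, Or.inl (Or.inl rfl), by simp [Low]⟩
    · exact ⟨_, Or.inr (Or.inl rfl), Or.inl (Or.inl rfl), by simp [Low]⟩
    · rintro x (rfl | rfl | rfl)
      · exact ⟨.p ⟨i, by omega⟩, Or.inr ⟨hpi, by simp [Low]⟩, Vx.l j k, Or.inl (Or.inr (Or.inr rfl)),
          by simp, Or.inr (Or.inl rfl), Or.inr hcon⟩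
      · exact ⟨.q ⟨i, by omega⟩, Or.inr ⟨hqi, by simp [Low]⟩, Vx.l j k, Or.inl (Or.inr (Or.inr rfl)),
          by simp, Or.inr (Or.inl rfl), Or.inr hcon⟩
      · exact ⟨Vx.a ⟨i, hi⟩ b, Or.inl (Or.inl rfl), Vx.a' ⟨i, hi⟩ b, Or.inl (Or.inr (Or.inl rfl)),
          by simp, Or.inl hcon, Or.inl hcon⟩
    · rintro (h | h | h) <;> simp [pLast] at h
  -- the next hubs
  have hp1 : Vx.p ⟨i + 1, by omega⟩ ∈ S := by
    obtain ⟨y2, h2, hne, hadj⟩ := hS.second (y1 := .p ⟨i, by omega⟩) hb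
    cases y2 with
    | p t =>
      simp [graph, EdgeRel] at hadj
      rcases hadj with h | h
      · exact absurd (by rw [show t = ⟨i, by omega⟩ from Fin.ext h]) hne
      · rw [show t = ⟨i + 1, by omega⟩ from Fin.ext h] at h2; exact h2
    | q t => simp [graph, EdgeRel] at hadj
    | a t c => simp [graph, EdgeRel] at hadj
    | a' t c =>
      simp [graph, EdgeRel] at hadj
      obtain ⟨rfl, h⟩ := hadj
      exact absurd (by rw [show (!b) = c by cases b <;> cases c <;> simp_all]; exact h2) hnc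
    | l j k =>
      simp [graph, EdgeRel] at hadj
      exact absurd hadj (hnl j k h2)
    | z => simp [graph, EdgeRel] at hadj
  have hq1 : Vx.q ⟨i + 1, by omega⟩ ∈ S := by
    obtain ⟨y2, h2, hne, hadj⟩ := hS.second (y1 := .q ⟨i, by omega⟩) hc
    cases y2 with
    | q t =>
      simp [graph, EdgeRel] at hadj
      rcases hadj with h | h
      · exact absurd (by rw [show t = ⟨i, by omega⟩ from Fin.ext h]) hne
      · rw [show t = ⟨i + 1, by omega⟩ from Fin.ext h] at h2; exact h2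
    | p t => simp [graph, EdgeRel] at hadj
    | a' t c => simp [graph, EdgeRel] at hadj
    | a t c =>
      simp [graph, EdgeRel] at hadj
      obtain ⟨rfl, h⟩ := hadj
      exact absurd (by rw [show (!b) = c by cases b <;> cases c <;> simp_all]; exact h2) hnb
    | l j k =>
      simp [graph, EdgeRel] at hadj
      exact absurd hadj (hnl j k h2)
    | z => simp [graph, EdgeRel] at hadj
  constructor
  · intro t ht
    rcases Nat.lt_or_ge i t.val with h | h
    · rw [show t = ⟨i + 1, by omega⟩ from Fin.ext (by simp; omega)]; exact hp1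
    · exact I.p t h
  · intro t ht
    rcases Nat.lt_or_ge i t.val with h | h
    · rw [show t = ⟨i + 1, by omega⟩ from Fin.ext (by simp; omega)]; exact hq1
    · exact I.q t h
  · intro t ht
    rcases Nat.lt_or_ge t.val i with h | h
    · exact I.a t h
    · rw [show t = ⟨i, hi⟩ from Fin.ext (by simp; omega)]
      exact ⟨b, hb, hc, hnb, hnc⟩

theorem inv_all (hS : CSet φ.graph S) (hlast : φ.pLast ∈ S) (hp : φ.pZero ∈ S) (hq : φ.qZero ∈ S) :
    ∀ i ≤ φ.n, Inv S i := by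
  intro i
  induction i with
  | zero =>
    intro _
    refine ⟨?_, ?_, ?_⟩
    · intro t ht
      rw [show t = ⟨0, by omega⟩ from Fin.ext (by simpa using ht)]; exact hp
    · intro t ht
      rw [show t = ⟨0, by omega⟩ from Fin.ext (by simpa using ht)]; exact hq
    · intro t ht; omega
  | succ i ih => exact fun h => step hS hlast h (ih (by omega))

end CNF

end Pool.Agent.Lib.MP_275a7d_co
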