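import Pool.Agent.Lib.MP_275a7d_co.SatBack

/-!
The number of negative chordless circles through the special edge is the number of satisfying
assignments; the formula with one more satisfying assignment.
-/

namespace Pool.Agent.Lib.MP_275a7d_co

open SimpleGraph

namespace CNF

/-- The vertices as a sum of finite types. -/
def vxEquiv (φ : CNF) : Vx φ ≃
    Fin (φ.n + φ.m + 1) ⊕ Fin (φ.n + 1) ⊕ (Fin φ.n × Bool) ⊕ (Fin φ.n × Bool) ⊕
      (Σ j : Fin φ.m, Fin (φ.clause j).length) ⊕ Unit where
  toFun
    | .p i => .inl i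
    | .q i => .inr (.inl i)
    | .a i b => .inr (.inr (.inl (i, b)))
    | .a' i b => .inr (.inr (.inr (.inl (i, b))))
    | .l j k => .inr (.inr (.inr (.inr (.inl ⟨j, k⟩))))
    | .z => .inr (.inr (.inr (.inr (.inr ()))))
  invFun
    | .inl i => .p i
    | .inr (.inl i) => .q i
    | .inr (.inr (.inl x)) => .a x.1 x.2
    | .inr (.inr (.inr (.inl x))) => .a' x.1 x.2
    | .inr (.inr (.inr (.inr (.inl x)))) => .l x.1 x.2
    | .inr (.inr (.inr (.inr (.inr _)))) => .z
  left_inv := by intro x; cases x <;> rfl
  right_inv := by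
    rintro (i | i | x | x | x | x) <;> rfl

instance (φ : CNF) : Finite (Vx φ) := Finite.of_equiv _ φ.vxEquiv.symm

theorem card_vx (φ : CNF) : Nat.card (Vx φ) = 6 * φ.n + φ.m + φ.length + 3 := by
  rw [Nat.card_congr φ.vxEquiv]
  simp only [Nat.card_eq_fintype_card, Fintype.card_sum, Fintype.card_fin, Fintype.card_prod,
    Fintype.card_bool, Fintype.card_sigma, Fintype.card_unit, CNF.length]
  ring

theorem hMinus_signed (φ : CNF) : φ.signed.hMinus φ.edge = φ.numSat := by
  unfold edge
  rw [hMinus_eq φ.signed φ.pZero φ.qZero φ.pLast Vx.z (Or.inl (.pq _ _ ⟨rfl, rfl⟩))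
    (Or.inl (.pz _ rfl)) rfl]
  have hg : φ.signed.graph = φ.graph := φ.sgraph_eq
  rw [hg]
  unfold numSat
  symm
  refine Set.ncard_congr (fun a _ => φ.SA a) ?_ ?_ ?_
  · intro a ha
    exact ⟨cset_SA ha, trivial, trivial, trivial, trivial⟩
  · intro a b _ _ h
    funext t
    have h1 : (Vx.a t (a t) : Vx φ) ∈ φ.SA a := rfl
    rw [h] at h1
    exact h1
  · rintro S ⟨hS, hp, hq, hlast, hz⟩
    obtain ⟨a, ha, rfl⟩ := forward hS hlast hp hq hz
    exact ⟨a, ha, rfl⟩

/-- The clauses `y ∨ c` for the clauses `c` of `φ`, and `¬ y ∨ x` for the variables `x` of `φ`; the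
variable `y` is the last one. -/
def plusClause (φ : CNF) : Fin (φ.m + φ.n) → List (Fin (φ.n + 1) × Bool) :=
  Fin.addCases
    (fun j => (Fin.last φ.n, true) :: (φ.clause j).map (fun l => (l.1.castSucc, l.2)))
    (fun i => [(Fin.last φ.n, false), (i.castSucc, true)])

/-- The formula with one more variable `y` and one more satisfying assignment: the clauses
`y ∨ c` for the clauses `c`, and `¬ y ∨ x` for the variables `x`. -/
def plus (φ : CNF) : CNF where
  n := φ.n + 1
  m := φ.m + φ.n
  clause := φ.plusClause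

theorem plusClause_left (φ : CNF) (j : Fin φ.m) : φ.plusClause (Fin.castAdd φ.n j) =
    (Fin.last φ.n, true) :: (φ.clause j).map (fun l => (l.1.castSucc, l.2)) := by
  rw [plusClause, Fin.addCases_left]

theorem plusClause_right (φ : CNF) (i : Fin φ.n) : φ.plusClause (Fin.natAdd φ.m i) =
    [(Fin.last φ.n, false), (i.castSucc, true)] := by
  rw [plusClause, Fin.addCases_right]

theorem sat_plus (φ : CNF) (a : Fin (φ.n + 1) → Bool) :
    φ.plus.Sat a ↔ (a (Fin.last _) = false ∧ φ.Sat (fun i => a i.castSucc)) ∨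
      (a (Fin.last _) = true ∧ ∀ i : Fin φ.n, a i.castSucc = true) := by
  have h0 : φ.plus.Sat a ↔ ∀ j : Fin (φ.m + φ.n), ∃ l ∈ φ.plusClause j, a l.1 = l.2 := Iff.rfl
  have h1 : φ.plus.Sat a ↔
      (∀ j : Fin φ.m, a (Fin.last _) = true ∨ ∃ l ∈ φ.clause j, a l.1.castSucc = l.2) ∧
        (∀ i : Fin φ.n, a (Fin.last _) = false ∨ a i.castSucc = true) := by
    rw [h0]
    constructor
    · intro h
      constructor
      · intro j
        obtain ⟨l, hl, ha⟩ := h (Fin.castAdd φ.n j)
        rw [plusClause_left] at hl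
        simp only [List.mem_cons, List.mem_map] at hl
        rcases hl with rfl | ⟨l', hl', rfl⟩
        · left; exact ha
        · right; exact ⟨l', hl', ha⟩
      · intro i
        obtain ⟨l, hl, ha⟩ := h (Fin.natAdd φ.m i)
        rw [plusClause_right] at hl
        simp only [List.mem_cons, List.not_mem_nil, or_false] at hl
        rcases hl with rfl | rfl
        · left; exact ha
        · right; exact ha
    · rintro ⟨h1, h2⟩ j
      refine Fin.addCases (fun j => ?_) (fun i => ?_) j
      · rw [plusClause_left]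
        rcases h1 j with h | ⟨l, hl, ha⟩
        · exact ⟨(Fin.last φ.n, true), List.mem_cons_self, h⟩
        · exact ⟨(l.1.castSucc, l.2), List.mem_cons_of_mem _ (List.mem_map.2 ⟨l, hl, rfl⟩), ha⟩
      · rw [plusClause_right]
        rcases h2 i with h | h
        · exact ⟨(Fin.last φ.n, false), by simp, h⟩
        · exact ⟨(i.castSucc, true), by simp, h⟩
  rw [h1]
  unfold Sat
  cases h : a (Fin.last φ.n) <;> simp

theorem numSat_plus (φ : CNF) : φ.plus.numSat = φ.numSat + 1 := by
  classical
  unfold numSat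
  show {a : Fin (φ.n + 1) → Bool | φ.plus.Sat a}.ncard = {a : Fin φ.n → Bool | φ.Sat a}.ncard + 1
  have hset : {a : Fin (φ.n + 1) → Bool | φ.plus.Sat a} =
      insert (fun _ => true)
        ((fun a : Fin φ.n → Bool => (Fin.snoc (α := fun _ => Bool) a false :
          Fin (φ.n + 1) → Bool)) '' {a | φ.Sat a}) := by
    ext a
    refine Iff.trans (sat_plus φ a) ?_
    rw [Set.mem_insert_iff, Set.mem_image]
    constructor
    · rintro (⟨h1, h2⟩ | ⟨h1, h2⟩)
      · right
        refine ⟨fun i => a i.castSucc, h2, ?_⟩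
        funext i
        refine Fin.lastCases ?_ (fun i => ?_) i
        · simp [h1]
        · simp
      · left
        funext i
        refine Fin.lastCases ?_ (fun i => ?_) i
        · exact h1
        · exact h2 i
    · rintro (rfl | ⟨b, hb, rfl⟩)
      · exact Or.inr ⟨rfl, fun _ => rfl⟩
      · refine Or.inl ⟨by simp, ?_⟩
        have : (fun i : Fin φ.n => (Fin.snoc (α := fun _ => Bool) b false :
          Fin (φ.n + 1) → Bool) i.castSucc) = b := by funext i; simp
        rw [this]; exact hb
  rw [hset, Set.ncard_insert_of_notMem]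
  · congr 1
    apply Set.ncard_image_of_injective
    intro a b h
    funext i
    have := congrFun h i.castSucc
    simpa using this
  · rintro ⟨b, -, h⟩
    have := congrFun h (Fin.last _)
    simp at this

theorem length_plus (φ : CNF) : φ.plus.length = 2 * φ.n + φ.m + φ.length := by
  unfold length
  show ∑ j : Fin (φ.m + φ.n), (φ.plusClause j).length = _
  rw [Fin.sum_univ_add]
  simp only [plusClause_left, plusClause_right, List.length_cons, List.length_map,
    List.length_nil, Finset.sum_add_distrib, Finset.sum_const, Finset.card_univ, Fintype.card_fin]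
  simp
  ring

end CNF

end Pool.Agent.Lib.MP_275a7d_co
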