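import Pool.Agent.Lib.MP_275a7d_co.BalMain
import Pool.Agent.Lib.MP_275a7d_co.CSet

/-!
The edges `e = uv` with `Σ - v` balanced which lie in exactly one negative chordless circle.
-/

namespace Pool.Agent.Lib.MP_275a7d_co

open SimpleGraph

variable {V : Type}

/-- The signed graph obtained by deleting all edges with an end in `A` (the vertices of `A` stay as
isolated vertices, which lie on no circle). -/
def SignedGraph.deleteVerts (Γ : SignedGraph V) (A : Set V) : SignedGraph V where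
  graph :=
    { Adj := fun x y => Γ.graph.Adj x y ∧ x ∉ A ∧ y ∉ A
      symm := ⟨fun _ _ h => ⟨h.1.symm, h.2.2, h.2.1⟩⟩
      loopless := ⟨fun x h => Γ.graph.loopless.irrefl x h.1⟩ }
  neg := {e | e ∈ Γ.neg ∧ ∀ x ∈ e, x ∉ A}
  neg_subset := by
    intro e
    refine Sym2.ind (fun x y => ?_) e
    rintro ⟨h, hA⟩
    exact ⟨Γ.neg_subset h, hA x (Sym2.mem_mk_left x y), hA y (Sym2.mem_mk_right x y)⟩

/-- The signed graph in which `u` and `w` are the only neighbours of `v`: the other neighbours of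
`v` are deleted. -/
def SignedGraph.only (Γ : SignedGraph V) (u v w : V) : SignedGraph V :=
  Γ.deleteVerts {x | Γ.graph.Adj v x ∧ x ≠ u ∧ x ≠ w}

/-- The vertex sets of the negative chordless circles through `u` and `v`. -/
def NSet (Γ : SignedGraph V) (u v : V) : Set (Set V) :=
  {S | CSet Γ.graph S ∧ u ∈ S ∧ v ∈ S ∧
    Odd ({f | f ∈ Γ.neg ∧ ∀ x ∈ f, x ∈ S}).ncard}

theorem hMinus_eq_nset (Γ : SignedGraph V) {u v : V} (huv : Γ.graph.Adj u v) :
    Γ.hMinus s(u, v) = (NSet Γ u v).ncard := by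
  have hedge : ∀ C : Γ.graph.Subgraph, Γ.IsChordless C →
      C.edgeSet ∩ Γ.neg = {f | f ∈ Γ.neg ∧ ∀ x ∈ f, x ∈ C.verts} := by
    intro C hch
    ext f
    refine Sym2.ind (fun x y => ?_) f
    constructor
    · rintro ⟨h1, h2⟩
      refine ⟨h2, ?_⟩
      intro z hz
      have h1' : C.Adj x y := h1
      rcases Sym2.mem_iff.1 hz with rfl | rfl
      · exact C.edge_vert h1'
      · exact C.edge_vert h1'.symm
    · rintro ⟨h1, h2⟩
      exact ⟨hch x (h2 x (Sym2.mem_mk_left x y)) y (h2 y (Sym2.mem_mk_right x y))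
        (Γ.neg_subset h1), h1⟩
  unfold SignedGraph.hMinus
  refine Set.ncard_congr (fun C _ => C.verts) ?_ ?_ ?_
  · rintro C ⟨hC, hch, hn, he⟩
    have h1 : C.Adj u v := he
    refine ⟨cset_of_circle Γ C hC hch, C.edge_vert h1, C.edge_vert h1.symm, ?_⟩
    unfold SignedGraph.IsNegative at hn
    rw [hedge C hch] at hn
    exact hn
  · rintro C D ⟨-, hC, -, -⟩ ⟨-, hD, -, -⟩ h
    exact ext_of_chordless Γ hC hD h
  · rintro S ⟨hS, hu, hv, hn⟩
    obtain ⟨h1, h2⟩ := circle_of_cset Γ S hS ⟨u, hu⟩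
    refine ⟨(⊤ : Γ.graph.Subgraph).induce S, ⟨h1, h2, ?_, h2 u hu v hv huv⟩, rfl⟩
    unfold SignedGraph.IsNegative
    rw [hedge _ h2]
    exact hn

theorem cset_delete (Γ : SignedGraph V) (A S : Set V) :
    CSet (Γ.deleteVerts A).graph S ↔ CSet Γ.graph S ∧ ∀ x ∈ S, x ∉ A := by
  constructor
  · intro h
    have hA : ∀ x ∈ S, x ∉ A := by
      intro x hx
      obtain ⟨y1, -, -, -, -, a1, -, -⟩ := h.deg2 x hx
      exact a1.2.1
    refine ⟨⟨?_, ?_⟩, hA⟩
    · intro x hx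
      obtain ⟨y1, h1, y2, h2, hne, a1, a2, hu⟩ := h.deg2 x hx
      exact ⟨y1, h1, y2, h2, hne, a1.1, a2.1, fun y hy hxy => hu y hy ⟨hxy, hA x hx, hA y hy⟩⟩
    · intro D hD hne hcl
      exact h.conn D hD hne (fun x hx y hy hxy => hcl x hx y hy hxy.1)
  · rintro ⟨h, hA⟩
    refine ⟨?_, ?_⟩
    · intro x hx
      obtain ⟨y1, h1, y2, h2, hne, a1, a2, hu⟩ := h.deg2 x hx
      exact ⟨y1, h1, y2, h2, hne, ⟨a1, hA x hx, hA y1 h1⟩, ⟨a2, hA x hx, hA y2 h2⟩,
        fun y hy hxy => hu y hy hxy.1⟩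
    · intro D hD hne hcl
      exact h.conn D hD hne (fun x hx y hy hxy => hcl x hx y hy ⟨hxy, hA x (hD hx), hA y hy⟩)

theorem nset_delete (Γ : SignedGraph V) (A : Set V) (u v : V) (S : Set V) :
    S ∈ NSet (Γ.deleteVerts A) u v ↔ S ∈ NSet Γ u v ∧ ∀ x ∈ S, x ∉ A := by
  unfold NSet
  simp only [Set.mem_ofPred_eq]
  rw [cset_delete]
  constructor
  · rintro ⟨⟨h1, hA⟩, hu, hv, hn⟩
    refine ⟨⟨h1, hu, hv, ?_⟩, hA⟩
    have : {f | f ∈ (Γ.deleteVerts A).neg ∧ ∀ x ∈ f, x ∈ S} =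
        {f | f ∈ Γ.neg ∧ ∀ x ∈ f, x ∈ S} := by
      ext f
      exact ⟨fun h => ⟨h.1.1, h.2⟩, fun h => ⟨⟨h.1, fun x hx => hA x (h.2 x hx)⟩, h.2⟩⟩
    rw [this] at hn
    exact hn
  · rintro ⟨⟨h1, hu, hv, hn⟩, hA⟩
    refine ⟨⟨h1, hA⟩, hu, hv, ?_⟩
    have : {f | f ∈ (Γ.deleteVerts A).neg ∧ ∀ x ∈ f, x ∈ S} =
        {f | f ∈ Γ.neg ∧ ∀ x ∈ f, x ∈ S} := by
      ext f
      exact ⟨fun h => ⟨h.1.1, h.2⟩, fun h => ⟨⟨h.1, fun x hx => hA x (h.2 x hx)⟩, h.2⟩⟩
    rw [this]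
    exact hn

/-- Every negative chordless circle through `uv` belongs to exactly one neighbour `w` of `v`. -/
theorem nset_only (Γ : SignedGraph V) {u v : V} (huv : Γ.graph.Adj u v) {S : Set V}
    (hS : S ∈ NSet Γ u v) : ∃ w, Γ.graph.Adj v w ∧ w ≠ u ∧ S ∈ NSet (Γ.only u v w) u v ∧
      ∀ w', Γ.graph.Adj v w' → w' ≠ u → S ∈ NSet (Γ.only u v w') u v → w' = w := by
  have hC := hS.1
  have hu := hS.2.1
  have hv := hS.2.2.1
  obtain ⟨w, hw, hwu, hvw, huniq⟩ : ∃ w ∈ S, w ≠ u ∧ Γ.graph.Adj v w ∧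
      ∀ y ∈ S, Γ.graph.Adj v y → y = u ∨ y = w := by
    obtain ⟨y1, h1, y2, h2, hne, a1, a2, h⟩ := hC.deg2 v hv
    rcases h u hu huv.symm with rfl | rfl
    · exact ⟨y2, h2, hne.symm, a2, h⟩
    · exact ⟨y1, h1, hne, a1, fun y hy hvy => (h y hy hvy).symm⟩
  refine ⟨w, hvw, hwu, ?_, ?_⟩
  · rw [SignedGraph.only, nset_delete]
    refine ⟨hS, ?_⟩
    rintro x hx ⟨hvx, hxu, hxw⟩
    rcases huniq x hx hvx with h | h
    · exact hxu h
    · exact hxw h
  · intro w' hvw' hw'u hS'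
    rw [SignedGraph.only, nset_delete] at hS'
    by_contra hne
    exact hS'.2 w hw ⟨hvw, hwu, Ne.symm hne⟩

/-- Deleting the edge `uv` from `Γ.only u v w` leaves a balanced signed graph if `Γ - v` is
balanced. -/
theorem only_balanced [Finite V] (Γ : SignedGraph V) {u v w : V}
    (hb : (Γ.deleteVerts {v}).Balanced) : ((Γ.only u v w).deleteEdge s(u, v)).Balanced := by
  intro C hC hneg
  -- `v` is not a vertex of `C`
  have hvC : v ∉ C.verts := by
    intro hv
    obtain ⟨y1, y2, hne, h⟩ := Set.ncard_eq_two.1 (hC.2 v hv)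
    have key : ∀ y, C.Adj v y → y = w := by
      intro y hy
      have h1 : (((Γ.only u v w).graph).deleteEdges {s(u, v)}).Adj v y := C.adj_sub hy
      rw [deleteEdges_adj] at h1
      obtain ⟨h2, h3⟩ := h1
      have hyu : y ≠ u := by
        rintro rfl
        exact h3 (by rw [Set.mem_singleton_iff, Sym2.eq_swap])
      by_contra hyw
      exact h2.2.2 ⟨h2.1, hyu, hyw⟩
    have h1 : C.Adj v y1 := by
      have : y1 ∈ C.neighborSet v := by rw [h]; simp
      exact this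
    have h2 : C.Adj v y2 := by
      have : y2 ∈ C.neighborSet v := by rw [h]; simp
      exact this
    exact hne ((key y1 h1).trans (key y2 h2).symm)
  have hadj : ∀ x y, C.Adj x y → (Γ.deleteVerts {v}).graph.Adj x y := by
    intro x y hxy
    have h1 : (((Γ.only u v w).graph).deleteEdges {s(u, v)}).Adj x y := C.adj_sub hxy
    rw [deleteEdges_adj] at h1
    refine ⟨h1.1.1, ?_, ?_⟩
    · rintro rfl
      exact hvC (C.edge_vert hxy)
    · rintro rfl
      exact hvC (C.edge_vert hxy.symm)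
  -- the same circle in `Γ - v`
  let C' : (Γ.deleteVerts {v}).graph.Subgraph :=
    { verts := C.verts
      Adj := C.Adj
      adj_sub := fun h => hadj _ _ h
      edge_vert := fun h => C.edge_vert h
      symm := C.symm }
  have hC' : (Γ.deleteVerts {v}).IsCircle C' := by
    refine ⟨?_, hC.2⟩
    rw [Subgraph.connected_iff]
    refine ⟨?_, hC.1.nonempty⟩
    rw [Subgraph.preconnected_iff]
    intro a b
    have hreach : C.coe.Reachable a b := hC.1.coe.preconnected a b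
    have : C.coe = C'.coe := rfl
    rw [this] at hreach
    exact hreach
  apply hb C' hC'
  unfold SignedGraph.IsNegative at hneg ⊢
  have : C.edgeSet ∩ ((Γ.only u v w).deleteEdge s(u, v)).neg =
      C'.edgeSet ∩ (Γ.deleteVerts {v}).neg := by
    ext f
    refine Sym2.ind (fun x y => ?_) f
    constructor
    · rintro ⟨h1, h2⟩
      refine ⟨h1, h2.1.1, ?_⟩
      have h3 := hadj x y h1
      intro z hz
      rcases Sym2.mem_iff.1 hz with rfl | rfl
      · exact h3.2.1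
      · exact h3.2.2
    · rintro ⟨h1, h2⟩
      have h3 : (((Γ.only u v w).graph).deleteEdges {s(u, v)}).Adj x y := C.adj_sub h1
      rw [deleteEdges_adj] at h3
      refine ⟨h1, ⟨h2.1, ?_⟩, h3.2⟩
      intro z hz
      rcases Sym2.mem_iff.1 hz with rfl | rfl
      · exact h3.1.2.1
      · exact h3.1.2.2
  rw [this] at hneg
  exact hneg

end Pool.Agent.Lib.MP_275a7d_co
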