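import Pool.Agent.Lib.MP_275a7d_co.Vert

/-!
Characterization of the edges `e = uv` with `Σ - v` balanced which lie in exactly one negative
chordless circle.
-/

namespace Pool.Agent.Lib.MP_275a7d_co

open SimpleGraph

variable {V : Type} [Finite V]

/-- If `Γ - e` is balanced and `Γ` is not, then `e` lies in a negative chordless circle. -/
theorem exists_of_unbalanced (Γ : SignedGraph V) {u v : V} (huv : Γ.graph.Adj u v)
    (hb : (Γ.deleteEdge s(u, v)).Balanced) (hub : ¬ Γ.Balanced) : (NSet Γ u v).Nonempty := by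
  obtain ⟨θ, hθ⟩ := exists_pot _ hb
  unfold SignedGraph.Balanced at hub
  push Not at hub
  obtain ⟨C0, hC0, hneg⟩ := hub
  rw [neg_iff Γ hθ C0 hC0.2] at hneg
  obtain ⟨q0, -⟩ := walk_minus C0 hC0.2 (show C0.Adj u v from hneg.1)
  obtain ⟨C1, hc1, hch1, he1, -, -⟩ :=
    exists_chordless Γ huv ∅ q0 (fun x _ => Set.notMem_empty x)
  have hneg1 : Γ.IsNegative C1 := by
    rw [neg_iff Γ hθ C1 hc1.2]
    exact ⟨he1, hneg.2⟩
  have hmem : Γ.hMinus s(u, v) ≠ 0 := by
    unfold SignedGraph.hMinus
    rw [Ne, Set.ncard_eq_zero, ← Ne, ← Set.nonempty_iff_ne_empty]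
    exact ⟨C1, hc1, hch1, hneg1, he1⟩
  rw [hMinus_eq_nset Γ huv, Ne, Set.ncard_eq_zero, ← Ne, ← Set.nonempty_iff_ne_empty] at hmem
  exact hmem

/-- A balanced signed graph has no negative chordless circle. -/
theorem nset_empty_of_balanced (Γ : SignedGraph V) {u v : V} (huv : Γ.graph.Adj u v)
    (hb : Γ.Balanced) : NSet Γ u v = ∅ := by
  have h0 : Γ.hMinus s(u, v) = 0 := by
    unfold SignedGraph.hMinus
    rw [Set.ncard_eq_zero]
    ext C
    simp only [Set.mem_ofPred_eq, Set.mem_empty_iff_false, iff_false]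
    rintro ⟨h1, -, h2, -⟩
    exact hb C h1 h2
  rw [hMinus_eq_nset Γ huv, Set.ncard_eq_zero] at h0
  exact h0

/-- Let `e = uv` be an edge of the finite signed simple graph `Γ` such that `Γ - v` is balanced.
Then `e` lies in exactly one negative chordless circle if and only if there is exactly one
neighbour `w ≠ u` of `v` such that the signed graph `Γ.only u v w` is not balanced, and for
this `w` there is in `Γ.only u v w` without `e` a path from `u` to `v` all of whose vertices lie on
every walk from `u` to `v`. -/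
theorem balancing_vertex (Γ : SignedGraph V) (u v : V) (huv : Γ.graph.Adj u v)
    (hb : (Γ.deleteVerts {v}).Balanced) :
    Γ.hMinus s(u, v) = 1 ↔
      ∃ w, Γ.graph.Adj v w ∧ w ≠ u ∧ ¬ (Γ.only u v w).Balanced ∧
        (∀ w', Γ.graph.Adj v w' → w' ≠ u → w' ≠ w → (Γ.only u v w').Balanced) ∧
        ∃ p : ((Γ.only u v w).graph.deleteEdges {s(u, v)}).Walk u v, p.IsPath ∧
          ∀ x ∈ p.support, ∀ q : ((Γ.only u v w).graph.deleteEdges {s(u, v)}).Walk u v,
            x ∈ q.support := by
  have hadj : ∀ w, (Γ.only u v w).graph.Adj u v := fun w =>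
    ⟨huv, fun h => h.2.1 rfl, fun h => Γ.graph.loopless.irrefl v h.1⟩
  have hbal : ∀ w, ((Γ.only u v w).deleteEdge s(u, v)).Balanced := fun w => only_balanced Γ hb
  have hsub : ∀ w S, S ∈ NSet (Γ.only u v w) u v → S ∈ NSet Γ u v := by
    intro w S hS
    rw [SignedGraph.only, nset_delete] at hS
    exact hS.1
  rw [hMinus_eq_nset Γ huv, Set.ncard_eq_one]
  constructor
  · rintro ⟨S, hS⟩
    have hmem : S ∈ NSet Γ u v := by rw [hS]; rfl
    obtain ⟨w, hvw, hwu, hSw, huniq⟩ := nset_only Γ huv hmem
    have hone : (Γ.only u v w).hMinus s(u, v) = 1 := by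
      rw [hMinus_eq_nset _ (hadj w), Set.ncard_eq_one]
      refine ⟨S, ?_⟩
      ext T
      constructor
      · intro hT
        have := hsub w T hT
        rw [hS] at this
        exact this
      · rintro rfl
        exact hSw
    rw [balancing_edge _ u v (hadj w) (hbal w)] at hone
    refine ⟨w, hvw, hwu, hone.1, ?_, hone.2⟩
    intro w' hvw' hw'u hne
    by_contra hub
    obtain ⟨T, hT⟩ := exists_of_unbalanced _ (hadj w') (hbal w') hub
    have hTS : T = S := by
      have := hsub w' T hT
      rw [hS] at this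
      exact this
    subst hTS
    exact hne (huniq w' hvw' hw'u hT)
  · rintro ⟨w, hvw, hwu, hub, hother, hp⟩
    have hone := (balancing_edge _ u v (hadj w) (hbal w)).2 ⟨hub, hp⟩
    rw [hMinus_eq_nset _ (hadj w), Set.ncard_eq_one] at hone
    obtain ⟨S, hS⟩ := hone
    refine ⟨S, ?_⟩
    ext T
    constructor
    · intro hT
      obtain ⟨w', hvw', hw'u, hTw', -⟩ := nset_only Γ huv hT
      by_cases hne : w' = w
      · subst hne
        rw [hS] at hTw'
        exact hTw'
      · rw [nset_empty_of_balanced _ (hadj w') (hother w' hvw' hw'u hne)] at hTw'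
        exact absurd hTw' (Set.notMem_empty T)
    · rintro rfl
      apply hsub w
      rw [hS]
      rfl

end Pool.Agent.Lib.MP_275a7d_co
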